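import Mathlib

/-!
Finite dimensional quadratic algebras with few relations, part A:
evaluation of quadratic relations, generalized limits, and the limit lemma.
-/

namespace Pool.Agent.TH40.Quad

universe u

variable {K : Type u} [Field K]

/-- Evaluate the quadratic relation with coefficients `r` on the family `f`. -/
def ev {ι : Type} [Fintype ι] {V : Type u} [AddCommGroup V] [Module K V]
    (r : ι → ι → K) (f : ι → ι → V) : V :=
  ∑ i, ∑ j, r i j • f i j

section ev
variable {ι : Type} [Fintype ι] {V W : Type u} [AddCommGroup V] [Module K V]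
  [AddCommGroup W] [Module K W]

theorem ev_map (φ : V →ₗ[K] W) (r : ι → ι → K) (f : ι → ι → V) :
    φ (ev r f) = ev r (fun i j => φ (f i j)) := by
  simp [ev, map_sum]

theorem ev_zero (r : ι → ι → K) : ev r (fun _ _ => (0 : V)) = 0 := by
  simp [ev]

theorem ev_congr (r : ι → ι → K) (f g : ι → ι → V) (h : ∀ i j, f i j = g i j) :
    ev r f = ev r g := by
  have : f = g := by funext i j; exact h i j
  rw [this]

end ev

/-- `R` is nil at length `N`: every functional on words of length `N` that is compatible with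
the relations vanishes. -/
def Nil {ι κ : Type} [Fintype ι] (R : κ → ι → ι → K) (N : ℕ) : Prop :=
  ∀ f : List ι → K,
    (∀ k l₁ l₂, l₁.length + l₂.length + 2 = N →
      ev (V := K) (R k) (fun i j => f (l₁ ++ i :: j :: l₂)) = 0) →
    ∀ l, l.length = N → f l = 0

/-- The pair of functionals `ξ, η` is good for the relations `R`: there is no nonzero pair
of spaces `X, Y` with letters acting `X → Y → X` on which the relation `k` acts as `ξ k` on `X`
and as `η k` on `Y`. -/
def Good {ι κ : Type} [Fintype ι] (R : κ → ι → ι → K) (ξ η : κ → K) : Prop :=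
  ∀ (X Y : Type u) [AddCommGroup X] [Module K X] [AddCommGroup Y] [Module K Y]
    (p : ι → X →ₗ[K] Y) (q : ι → Y →ₗ[K] X),
    (∀ k x, ev (R k) (fun i j => q i (p j x)) = ξ k • x) →
    (∀ k y, ev (R k) (fun i j => p i (q j y)) = η k • y) →
    ∀ x : X, x = 0

/-- A generalized limit on sequences of scalars. -/
theorem exists_lim : ∃ Λ : (ℕ → K) →ₗ[K] K, Λ (fun _ => 1) = 1 ∧
    ∀ f : ℕ → K, (∃ N, ∀ n, N ≤ n → f n = 0) → Λ f = 0 := by
  let p : Submodule K (ℕ → K) :=
    { carrier := {f | ∃ N, ∀ n, N ≤ n → f n = 0}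
      zero_mem' := ⟨0, fun _ _ => rfl⟩
      add_mem' := by
        rintro f g ⟨N, hN⟩ ⟨M, hM⟩
        refine ⟨max N M, fun n hn => ?_⟩
        simp [hN n (le_trans (le_max_left _ _) hn), hM n (le_trans (le_max_right _ _) hn)]
      smul_mem' := by
        rintro c f ⟨N, hN⟩
        exact ⟨N, fun n hn => by simp [hN n hn]⟩ }
  have h1 : (fun _ => (1 : K)) ∉ p := by
    rintro ⟨N, hN⟩
    exact one_ne_zero (hN N le_rfl)
  obtain ⟨f, hf, hp⟩ := Submodule.exists_le_ker_of_notMem h1
  refine ⟨(f (fun _ => 1))⁻¹ • f, ?_, fun g hg => ?_⟩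
  · simp [hf]
  · have : f g = 0 := hp hg
    simp [this]

end Pool.Agent.TH40.Quad
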