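import Mathlib
import Pool.Agent.TH40.QuadA

namespace Pool.Agent.TH40.Quad

universe u

variable {K : Type u} [Field K]

section limit

variable {V : Type u} [AddCommGroup V] [Module K V]

/-- Eventually equal sequences have the same limit. -/
theorem lim_congr (Lim : (ℕ → V) →ₗ[K] V)
    (he : ∀ G : ℕ → V, (∃ N, ∀ n, N ≤ n → G n = 0) → Lim G = 0) {G H : ℕ → V}
    (N : ℕ) (h : ∀ n, N ≤ n → G n = H n) : Lim G = Lim H := by
  have h1 : Lim (G - H) = 0 := he _ ⟨N, fun n hn => by simp [h n hn]⟩
  rw [map_sub] at h1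
  exact sub_eq_zero.mp h1

/-- The submodule of sequences `g` with `c (g (s+1)) = g s`. -/
def seqSub (c : Module.End K V) : Submodule K (ℕ → V) where
  carrier := {g | ∀ s, c (g (s + 1)) = g s}
  zero_mem' := fun s => by simp
  add_mem' := by
    intro f g hf hg s
    simp [hf s, hg s]
  smul_mem' := by
    intro a f hf s
    simp [hf s]

theorem seqSub_pow (c : Module.End K V) {g : ℕ → V} (hg : g ∈ seqSub c) (s k : ℕ) :
    (c ^ k) (g (s + k)) = g s := by
  induction k with
  | zero => simp
  | succ k ih =>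
    rw [pow_succ, Module.End.mul_apply]
    have : c (g (s + (k + 1))) = g (s + k) := hg (s + k)
    rw [this, ih]

theorem pow_comm_lim (Lim : (ℕ → V) →ₗ[K] V) (e : Module.End K V)
    (heL : ∀ G : ℕ → V, e (Lim G) = Lim (fun t => e (G t))) (k : ℕ) (G : ℕ → V) :
    (e ^ k) (Lim G) = Lim (fun t => (e ^ k) (G t)) := by
  induction k generalizing G with
  | zero => simp
  | succ k ih =>
    rw [pow_succ, Module.End.mul_apply, heL, ih]
    simp [Module.End.mul_apply]

theorem comm_pow (A c e : Module.End K V) (hcx : ∀ v, c (A v) = A (e v)) (k : ℕ) (v : V) :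
    (c ^ k) (A v) = A ((e ^ k) v) := by
  induction k generalizing v with
  | zero => simp
  | succ k ih =>
    rw [pow_succ, Module.End.mul_apply, hcx, ih, pow_succ, Module.End.mul_apply]

/-- Letters from the `e`-side to the `c`-side. -/
def hatMap (A c e : Module.End K V) (hcx : ∀ v, c (A v) = A (e v)) :
    seqSub e →ₗ[K] seqSub c where
  toFun h := ⟨fun s => A (h.1 s), fun s => by
    change c (A (h.1 (s + 1))) = A (h.1 s)
    rw [hcx, h.2 s]⟩
  map_add' := by
    intro x y; ext s; simp
  map_smul' := by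
    intro a x; ext s; simp

/-- Letters from the `c`-side to the `e`-side, defined by a generalized limit. -/
def tilMap (Lim : (ℕ → V) →ₗ[K] V)
    (he : ∀ G : ℕ → V, (∃ N, ∀ n, N ≤ n → G n = 0) → Lim G = 0)
    (A c e : Module.End K V)
    (heL : ∀ G : ℕ → V, e (Lim G) = Lim (fun t => e (G t))) :
    seqSub c →ₗ[K] seqSub e where
  toFun g := ⟨fun s' => Lim (fun s => (e ^ (s - s')) (A (g.1 (s + 1)))), fun s' => by
    change e (Lim _) = Lim _
    rw [heL]
    refine lim_congr Lim he (s' + 1) (fun n hn => ?_)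
    have h : n - s' = (n - (s' + 1)) + 1 := by omega
    rw [h, pow_succ', Module.End.mul_apply]⟩
  map_add' := by
    intro x y
    ext s'
    change Lim (fun s => (e ^ (s - s')) (A ((x.1 + y.1) (s + 1)))) = _ + _
    rw [← map_add]
    congr 1
    funext s
    simp
  map_smul' := by
    intro a x
    ext s'
    change Lim (fun s => (e ^ (s - s')) (A ((a • x.1) (s + 1)))) = a • Lim _
    rw [← map_smul]
    congr 1
    funext s
    simp

theorem ev_coe {ι : Type} [Fintype ι] (c : Module.End K V) (r : ι → ι → K)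
    (f : ι → ι → seqSub c) (s : ℕ) :
    (ev r f).1 s = ev r (fun i j => (f i j).1 s) :=
  ev_map ((LinearMap.proj s).comp (seqSub c).subtype) r f

theorem ev_lim {ι : Type} [Fintype ι] (Lim : (ℕ → V) →ₗ[K] V) (r : ι → ι → K)
    (F : ι → ι → ℕ → V) :
    ev r (fun i j => Lim (F i j)) = Lim (fun s => ev r (fun i j => F i j s)) := by
  have h1 := ev_map Lim r F
  rw [← h1]
  congr 1
  funext s
  exact ev_map (LinearMap.proj s : (ℕ → V) →ₗ[K] V) r F

/-- The limit lemma: no coherent sequence for `c`. -/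
theorem limit_lemma {ι κ : Type} [Fintype ι] (R : κ → ι → ι → K) (ξ η : κ → K)
    (hG : Good R ξ η) (hη : ∃ k, η k ≠ 0)
    (Lim : (ℕ → V) →ₗ[K] V) (hconst : ∀ v, Lim (fun _ => v) = v)
    (he : ∀ G : ℕ → V, (∃ N, ∀ n, N ≤ n → G n = 0) → Lim G = 0)
    (A : ι → Module.End K V) (c e : Module.End K V)
    (hA : ∀ i (G : ℕ → V), A i (Lim G) = Lim (fun t => A i (G t)))
    (heL : ∀ G : ℕ → V, e (Lim G) = Lim (fun t => e (G t)))
    (hcx : ∀ i v, c (A i v) = A i (e v))
    (hce : ∀ v, c (e v) = 0)
    (hR : ∀ k v, ev (R k) (fun i j => A i (A j v)) = ξ k • e v + η k • c v)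
    (g : ℕ → V) (hg : ∀ s, c (g (s + 1)) = g s) : ∀ s, g s = 0 := by
  have key := hG (seqSub e) (seqSub c) (fun i => hatMap (A i) c e (hcx i))
    (fun i => tilMap Lim he (A i) c e heL)
  have hX : ∀ (k : κ) (x : seqSub e),
      ev (R k) (fun i j => tilMap Lim he (A i) c e heL (hatMap (A j) c e (hcx j) x)) = ξ k • x := by
    intro k x
    ext s'
    rw [ev_coe]
    change ev (R k) (fun i j => Lim (fun s => (e ^ (s - s')) (A i (A j (x.1 (s + 1)))))) = ξ k • x.1 s'
    rw [ev_lim]
    have h1 : Lim (fun s => ev (R k) (fun i j => (e ^ (s - s')) (A i (A j (x.1 (s + 1)))))) =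
        Lim (fun _ => ξ k • x.1 s') := by
      refine lim_congr Lim he s' (fun n hn => ?_)
      rw [← ev_map (e ^ (n - s')), hR]
      have h2 : c (x.1 (n + 1)) = 0 := by
        have := x.2 (n + 1)
        rw [← this]; exact hce _
      have h3 : e (x.1 (n + 1)) = x.1 n := x.2 n
      have h4 : (e ^ (n - s')) (x.1 n) = x.1 s' := by
        have := seqSub_pow e x.2 s' (n - s')
        rwa [Nat.add_sub_cancel' hn] at this
      rw [h2, h3, map_add, map_smul, map_smul, h4, map_zero, smul_zero, add_zero]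
    rw [h1, hconst]
  have hY : ∀ (k : κ) (y : seqSub c),
      ev (R k) (fun i j => hatMap (A i) c e (hcx i) (tilMap Lim he (A j) c e heL y)) = η k • y := by
    intro k y
    ext s'
    rw [ev_coe]
    change ev (R k) (fun i j => A i (Lim (fun s => (e ^ (s - s')) (A j (y.1 (s + 1)))))) = η k • y.1 s'
    have h0 : ev (R k) (fun i j => A i (Lim (fun s => (e ^ (s - s')) (A j (y.1 (s + 1)))))) =
        ev (R k) (fun i j => Lim (fun s => (c ^ (s - s')) (A i (A j (y.1 (s + 1)))))) := by
      refine ev_congr _ _ _ (fun i j => ?_)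
      rw [hA]
      congr 1
      funext s
      rw [comm_pow (A i) c e (hcx i)]
    rw [h0, ev_lim]
    have h1 : Lim (fun s => ev (R k) (fun i j => (c ^ (s - s')) (A i (A j (y.1 (s + 1)))))) =
        Lim (fun _ => η k • y.1 s') := by
      refine lim_congr Lim he (s' + 1) (fun n hn => ?_)
      rw [← ev_map (c ^ (n - s')), hR]
      have h2 : (c ^ (n - s')) (e (y.1 (n + 1))) = 0 := by
        have h : n - s' = (n - (s' + 1)) + 1 := by omega
        rw [h, pow_succ, Module.End.mul_apply, hce, map_zero]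
      have h3 : c (y.1 (n + 1)) = y.1 n := y.2 n
      have h4 : (c ^ (n - s')) (y.1 n) = y.1 s' := by
        have := seqSub_pow c y.2 s' (n - s')
        rwa [Nat.add_sub_cancel' (by omega)] at this
      rw [map_add, map_smul, map_smul, h2, h3, h4, smul_zero, zero_add]
    rw [h1, hconst]
  have hx0 := key hX hY
  obtain ⟨k, hk⟩ := hη
  have hy : η k • (⟨g, hg⟩ : seqSub c) = 0 := by
    rw [← hY k ⟨g, hg⟩]
    have : ev (R k) (fun i j => hatMap (A i) c e (hcx i)
        (tilMap Lim he (A j) c e heL (⟨g, hg⟩ : seqSub c))) = ev (R k) (fun _ _ => 0) := by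
      refine ev_congr _ _ _ (fun i j => ?_)
      rw [hx0 (tilMap Lim he (A j) c e heL (⟨g, hg⟩ : seqSub c)), map_zero]
    rw [this, ev_zero]
  have hg0 : (⟨g, hg⟩ : seqSub c) = 0 := (smul_eq_zero.mp hy).resolve_left hk
  have : g = 0 := congrArg Subtype.val hg0
  intro s
  rw [this]; rfl

end limit

end Pool.Agent.TH40.Quad
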