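import Mathlib
import Pool.Agent.TH40.QuadB

namespace Pool.Agent.TH40.Quad

universe u

variable {K : Type u} [Field K]

section ann

variable {α κ : Type} [Fintype α]

/-- Functionals on words compatible with the relations. -/
def annSub (R : κ → α → α → K) : Submodule K (List α → K) where
  carrier := {f | ∀ k l₁ l₂, ev (V := K) (R k) (fun i j => f (l₁ ++ i :: j :: l₂)) = 0}
  zero_mem' := fun k l₁ l₂ => ev_zero (V := K) (R k)
  add_mem' := by
    intro f g hf hg k l₁ l₂
    have h1 := hf k l₁ l₂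
    have h2 := hg k l₁ l₂
    simp only [ev, Pi.add_apply, smul_add, Finset.sum_add_distrib] at h1 h2 ⊢
    rw [h1, h2, add_zero]
  smul_mem' := by
    intro a f hf k l₁ l₂
    have h1 := hf k l₁ l₂
    have h2 := ev_map (LinearMap.lsmul K K a) (R k) (fun i j => f (l₁ ++ i :: j :: l₂))
    rw [h1, map_zero] at h2
    exact h2.symm

/-- The letter `i` acting on functionals. -/
def sh (R : κ → α → α → K) (i : α) : Module.End K (annSub R) where
  toFun v := ⟨fun l => v.1 (l ++ [i]), fun k l₁ l₂ => by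
    have := v.2 k l₁ (l₂ ++ [i])
    simpa using this⟩
  map_add' := by intro x y; ext l; simp
  map_smul' := by intro a x; ext l; simp

/-- Shift of a functional by a prefix. -/
def lsh (R : κ → α → α → K) (m : List α) : Module.End K (annSub R) where
  toFun v := ⟨fun l => v.1 (m ++ l), fun k l₁ l₂ => by
    have := v.2 k (m ++ l₁) l₂
    simpa using this⟩
  map_add' := by intro x y; ext l; simp
  map_smul' := by intro a x; ext l; simp

@[simp] theorem sh_apply (R : κ → α → α → K) (i : α) (v : annSub R) (l : List α) :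
    (sh R i v).1 l = v.1 (l ++ [i]) := rfl

@[simp] theorem lsh_apply (R : κ → α → α → K) (m : List α) (v : annSub R) (l : List α) :
    (lsh R m v).1 l = v.1 (m ++ l) := rfl

theorem sh_lsh (R : κ → α → α → K) (i : α) (m : List α) :
    sh R i * lsh R m = lsh R m * sh R i := by
  ext v l
  change v.1 (m ++ (l ++ [i])) = v.1 (m ++ l ++ [i])
  rw [List.append_assoc]

theorem prod_sh (R : κ → α → α → K) (w : List α) (v : annSub R) (l : List α) :
    ((w.map (sh R)).prod v).1 l = v.1 (l ++ w) := by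
  induction w generalizing l with
  | nil => simp
  | cons x w ih =>
    rw [List.map_cons, List.prod_cons, Module.End.mul_apply, sh_apply, ih]
    simp

theorem ev_ann (R : κ → α → α → K) (r : α → α → K) (f : α → α → annSub R) (l : List α) :
    (ev r f).1 l = ev (V := K) r (fun i j => (f i j).1 l) :=
  ev_map ((LinearMap.proj l : (List α → K) →ₗ[K] K).comp (annSub R).subtype) r f

theorem rel_sh (R : κ → α → α → K) (k : κ) (v : annSub R) :
    ev (R k) (fun i j => sh R i (sh R j v)) = 0 := by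
  ext l
  rw [ev_ann]
  have := v.2 k l []
  simpa using this

/-- The generalized limit on compatible functionals. -/
def annLim (R : κ → α → α → K) (Λ : (ℕ → K) →ₗ[K] K) : (ℕ → annSub R) →ₗ[K] annSub R where
  toFun G := ⟨fun l => Λ (fun t => (G t).1 l), fun k l₁ l₂ => by
    rw [ev_lim]
    have : (fun s => ev (V := K) (R k) (fun i j => (G s).1 (l₁ ++ i :: j :: l₂))) = 0 := by
      funext s
      exact (G s).2 k l₁ l₂
    rw [this, map_zero]⟩
  map_add' := by
    intro x y; ext l
    change Λ (fun t => (x t).1 l + (y t).1 l) = Λ _ + Λ _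
    rw [← map_add]; rfl
  map_smul' := by
    intro a x; ext l
    change Λ (fun t => a * (x t).1 l) = a * Λ _
    rw [← smul_eq_mul a (Λ _), ← map_smul]; rfl

theorem annLim_const (R : κ → α → α → K) (Λ : (ℕ → K) →ₗ[K] K) (h1 : Λ (fun _ => 1) = 1)
    (v : annSub R) : annLim R Λ (fun _ => v) = v := by
  ext l
  change Λ (fun _ => v.1 l) = v.1 l
  have : (fun _ : ℕ => v.1 l) = v.1 l • (fun _ : ℕ => (1 : K)) := by
    funext s; simp
  rw [this, map_smul, h1]; simp

theorem annLim_ev (R : κ → α → α → K) (Λ : (ℕ → K) →ₗ[K] K)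
    (h0 : ∀ f : ℕ → K, (∃ N, ∀ n, N ≤ n → f n = 0) → Λ f = 0)
    (G : ℕ → annSub R) (h : ∃ N, ∀ n, N ≤ n → G n = 0) : annLim R Λ G = 0 := by
  ext l
  change Λ (fun t => (G t).1 l) = 0
  obtain ⟨N, hN⟩ := h
  exact h0 _ ⟨N, fun n hn => by rw [hN n hn]; rfl⟩

theorem annLim_sh (R : κ → α → α → K) (Λ : (ℕ → K) →ₗ[K] K) (i : α) (G : ℕ → annSub R) :
    sh R i (annLim R Λ G) = annLim R Λ (fun t => sh R i (G t)) := rfl

end ann

section ext

variable {ι κ : Type} [Fintype ι] [DecidableEq ι]

/-- The extension of a family of relations by two letters `a = inr false` and `z = inr true`: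
the old relation `k` becomes `r_k - ξ k a² - η k z²`, and there are the new relations
`z a` and `x a - z x` for every old letter `x`. -/
def extR (R : κ → ι → ι → K) (ξ η : κ → K) : κ ⊕ Option ι → ι ⊕ Bool → ι ⊕ Bool → K
  | Sum.inl k, Sum.inl i, Sum.inl j => R k i j
  | Sum.inl k, Sum.inr false, Sum.inr false => - ξ k
  | Sum.inl k, Sum.inr true, Sum.inr true => - η k
  | Sum.inr none, Sum.inr true, Sum.inr false => 1
  | Sum.inr (some x), Sum.inl i, Sum.inr false => if i = x then 1 else 0
  | Sum.inr (some x), Sum.inr true, Sum.inl i => if i = x then -1 else 0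
  | _, _, _ => 0

variable {V : Type u} [AddCommGroup V] [Module K V]

theorem ev_ext_old (R : κ → ι → ι → K) (ξ η : κ → K) (k : κ) (f : ι ⊕ Bool → ι ⊕ Bool → V) :
    ev (extR R ξ η (Sum.inl k)) f =
      ev (R k) (fun i j => f (Sum.inl i) (Sum.inl j))
        - ξ k • f (Sum.inr false) (Sum.inr false) - η k • f (Sum.inr true) (Sum.inr true) := by
  simp only [ev, Fintype.sum_sum_type, Fintype.sum_bool, extR, zero_smul, add_zero,
    Finset.sum_const_zero, zero_add, neg_smul]
  abel

theorem ev_ext_za (R : κ → ι → ι → K) (ξ η : κ → K) (f : ι ⊕ Bool → ι ⊕ Bool → V) :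
    ev (extR R ξ η (Sum.inr none)) f = f (Sum.inr true) (Sum.inr false) := by
  simp only [ev, Fintype.sum_sum_type, Fintype.sum_bool, extR, zero_smul, add_zero,
    Finset.sum_const_zero, zero_add, one_smul]

theorem ev_ext_xa (R : κ → ι → ι → K) (ξ η : κ → K) (x : ι) (f : ι ⊕ Bool → ι ⊕ Bool → V) :
    ev (extR R ξ η (Sum.inr (some x))) f =
      f (Sum.inl x) (Sum.inr false) - f (Sum.inr true) (Sum.inl x) := by
  simp only [ev, Fintype.sum_sum_type, Fintype.sum_bool, extR, zero_smul, add_zero,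
    Finset.sum_const_zero, zero_add, ite_smul, one_smul, neg_smul, Finset.sum_ite_eq',
    Finset.mem_univ, if_true]
  abel

end ext

section nilp

variable {ι κ : Type} [Fintype ι] [DecidableEq ι]

theorem sh_za (R : κ → ι → ι → K) (ξ η : κ → K) :
    sh (extR R ξ η) (Sum.inr true) * sh (extR R ξ η) (Sum.inr false) = 0 := by
  ext1 v
  have := rel_sh (extR R ξ η) (Sum.inr none) v
  rw [ev_ext_za] at this
  exact this

theorem sh_xa (R : κ → ι → ι → K) (ξ η : κ → K) (x : ι) :
    sh (extR R ξ η) (Sum.inl x) * sh (extR R ξ η) (Sum.inr false) =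
      sh (extR R ξ η) (Sum.inr true) * sh (extR R ξ η) (Sum.inl x) := by
  ext1 v
  have := rel_sh (extR R ξ η) (Sum.inr (some x)) v
  rw [ev_ext_xa] at this
  exact sub_eq_zero.mp this

theorem sh_old (R : κ → ι → ι → K) (ξ η : κ → K) (k : κ) (v : annSub (extR R ξ η)) :
    ev (R k) (fun i j => sh (extR R ξ η) (Sum.inl i) (sh (extR R ξ η) (Sum.inl j) v)) =
      ξ k • (sh (extR R ξ η) (Sum.inr false) * sh (extR R ξ η) (Sum.inr false)) v +
      η k • (sh (extR R ξ η) (Sum.inr true) * sh (extR R ξ η) (Sum.inr true)) v := by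
  have := rel_sh (extR R ξ η) (Sum.inl k) v
  rw [ev_ext_old, sub_sub, sub_eq_zero] at this
  exact this

theorem c_nilpotent (R : κ → ι → ι → K) (ξ η : κ → K) (hG : Good R ξ η) (hη : ∃ k, η k ≠ 0) :
    ∃ m : ℕ, (sh (extR R ξ η) (Sum.inr true) * sh (extR R ξ η) (Sum.inr true)) ^ m = 0 := by
  set R' := extR R ξ η with hR'
  set a := sh R' (Sum.inr false) with ha
  set z := sh R' (Sum.inr true) with hz
  by_contra hcon
  push Not at hcon
  obtain ⟨Λ, hΛ1, hΛ0⟩ := exists_lim (K := K)
  -- witnesses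
  have hw : ∀ m : ℕ, ∃ φ : annSub R', (((z * z) ^ m) φ).1 [] = 1 := by
    intro m
    have h1 : ∃ v, ((z * z) ^ m) v ≠ 0 := by
      by_contra h
      push Not at h
      exact hcon m (LinearMap.ext h)
    obtain ⟨v, hv⟩ := h1
    have h2 : ∃ l, (((z * z) ^ m) v).1 l ≠ 0 := by
      by_contra h
      push Not at h
      exact hv (Subtype.ext (funext h))
    obtain ⟨l, hl⟩ := h2
    have hcomm : Commute ((z * z) ^ m) (lsh R' l) := by
      have : Commute z (lsh R' l) := sh_lsh R' (Sum.inr true) l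
      exact (this.mul_left this).pow_left m
    refine ⟨((((z * z) ^ m) v).1 l)⁻¹ • lsh R' l v, ?_⟩
    rw [map_smul]
    have h3 : ((z * z) ^ m) (lsh R' l v) = lsh R' l (((z * z) ^ m) v) := by
      have := LinearMap.congr_fun hcomm.eq v
      exact this
    rw [h3]
    change ((((z * z) ^ m) v).1 l)⁻¹ * (((z * z) ^ m) v).1 (l ++ []) = 1
    rw [List.append_nil, inv_mul_cancel₀ hl]
  choose φ hφ using hw
  have hcL : ∀ G : ℕ → annSub R', (z * z) (annLim R' Λ G) = annLim R' Λ (fun t => (z * z) (G t)) :=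
    fun G => rfl
  let g : ℕ → annSub R' := fun s => annLim R' Λ (fun t => ((z * z) ^ (t - s)) (φ t))
  have hg : ∀ s, (z * z) (g (s + 1)) = g s := by
    intro s
    change (z * z) (annLim R' Λ _) = annLim R' Λ _
    rw [hcL]
    refine lim_congr _ (annLim_ev R' Λ hΛ0) (s + 1) (fun n hn => ?_)
    have h : n - s = (n - (s + 1)) + 1 := by omega
    rw [h, pow_succ', Module.End.mul_apply ((z * z)) ((z * z) ^ _)]
  have hza : z * a = 0 := sh_za R ξ η
  have hxa : ∀ x, sh R' (Sum.inl x) * a = z * sh R' (Sum.inl x) := fun x => sh_xa R ξ η x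
  have hcx : ∀ i v, (z * z) (sh R' (Sum.inl i) v) = sh R' (Sum.inl i) ((a * a) v) := by
    intro i v
    have : (z * z) * sh R' (Sum.inl i) = sh R' (Sum.inl i) * (a * a) := by
      rw [mul_assoc, ← hxa, ← mul_assoc, ← hxa, mul_assoc]
    exact LinearMap.congr_fun this v
  have hce : ∀ v, (z * z) ((a * a) v) = 0 := by
    intro v
    have : (z * z) * (a * a) = 0 := by
      rw [mul_assoc, ← mul_assoc z a a, hza, zero_mul, mul_zero]
    exact LinearMap.congr_fun this v
  have hlim := limit_lemma R ξ η hG hη (annLim R' Λ) (annLim_const R' Λ hΛ1)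
    (annLim_ev R' Λ hΛ0) (fun i => sh R' (Sum.inl i)) (z * z) (a * a)
    (fun i G => rfl) (fun G => rfl) hcx hce (fun k v => sh_old R ξ η k v) g hg 0
  have h1 : (g 0).1 [] = 1 := by
    change Λ (fun t => (((z * z) ^ (t - 0)) (φ t)).1 []) = 1
    have : (fun t => (((z * z) ^ (t - 0)) (φ t)).1 []) = fun _ => (1 : K) := by
      funext t
      rw [Nat.sub_zero]; exact hφ t
    rw [this, hΛ1]
  rw [hlim] at h1
  exact zero_ne_one h1

end nilp

end Pool.Agent.TH40.Quad
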