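import Mathlib
import Pool.Agent.TH40.QuadC

namespace Pool.Agent.TH40.Quad

universe u

variable {K : Type u} [Field K]

section fd

variable {ι : Type} [Fintype ι]

/-- Number of old letters in a word. -/
def mc (w : List (ι ⊕ Bool)) : ℕ := w.countP Sum.isLeft

omit [Fintype ι] in
theorem mc_append (u v : List (ι ⊕ Bool)) : mc (u ++ v) = mc u + mc v := List.countP_append

omit [Fintype ι] in
theorem mc_replicate (n : ℕ) (b : Bool) : mc (List.replicate n (Sum.inr b : ι ⊕ Bool)) = 0 := by
  simp [mc, List.countP_replicate]

/-- The word `x₁ z^{κ 0} x₂ z^{κ 1} ⋯`. -/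
def insl : (ℕ → ℕ) → List ι → List (ι ⊕ Bool)
  | _, [] => []
  | s, x :: l => Sum.inl x :: (List.replicate (s 0) (Sum.inr true) ++ insl (fun n => s (n + 1)) l)

omit [Fintype ι] in
theorem mc_insl (s : ℕ → ℕ) (l : List ι) : mc (insl s l) = l.length := by
  induction l generalizing s with
  | nil => simp [insl, mc]
  | cons x l ih =>
    have h : insl s (x :: l) = [Sum.inl x] ++
        (List.replicate (s 0) (Sum.inr true) ++ insl (fun n => s (n + 1)) l) := rfl
    rw [h, mc_append, mc_append, mc_replicate, ih]
    simp [mc]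
    omega

omit [Fintype ι] in
theorem insl_split (s : ℕ → ℕ) (l₁ : List ι) (x y : ι) (l₂ : List ι) :
    insl s (l₁ ++ x :: y :: l₂) = insl s l₁ ++
      (Sum.inl x :: (List.replicate (s l₁.length) (Sum.inr true) ++
        (Sum.inl y :: (List.replicate (s (l₁.length + 1)) (Sum.inr true) ++
          insl (fun n => s (n + (l₁.length + 2))) l₂)))) := by
  induction l₁ generalizing s with
  | nil => rfl
  | cons a l ih =>
    have h := ih (fun n => s (n + 1))
    simp only [List.cons_append, insl, List.length_cons, List.append_assoc]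
    rw [h]
    rfl

/-- Prepend an exponent. -/
def consf (k₀ : ℕ) (s : ℕ → ℕ) : ℕ → ℕ
  | 0 => k₀
  | n + 1 => s n

omit [Fintype ι] in
theorem insl_consf (k₀ : ℕ) (s : ℕ → ℕ) (x : ι) (l : List ι) :
    insl (consf k₀ s) (x :: l) =
      Sum.inl x :: (List.replicate k₀ (Sum.inr true) ++ insl s l) := rfl

/-- Standard words `a^i z^k₀ x₁ z^{κ 0} x₂ z^{κ 1} ⋯`. -/
def nfl (i k₀ : ℕ) (s : ℕ → ℕ) (l : List ι) : List (ι ⊕ Bool) :=
  List.replicate i (Sum.inr false) ++ (List.replicate k₀ (Sum.inr true) ++ insl s l)

omit [Fintype ι] in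
theorem mc_nfl (i k₀ : ℕ) (s : ℕ → ℕ) (l : List ι) : mc (nfl i k₀ s l) = l.length := by
  rw [nfl, mc_append, mc_append, mc_replicate, mc_replicate, mc_insl]; omega

variable {E : Type u} [Ring E] [Algebra K E]

/-- Product of the letters of a word. -/
def pr (A : ι ⊕ Bool → E) (w : List (ι ⊕ Bool)) : E := (w.map A).prod

omit [Fintype ι] in
theorem pr_append (A : ι ⊕ Bool → E) (u v : List (ι ⊕ Bool)) : pr A (u ++ v) = pr A u * pr A v := by
  simp [pr]

omit [Fintype ι] in
theorem pr_cons (A : ι ⊕ Bool → E) (x : ι ⊕ Bool) (v : List (ι ⊕ Bool)) :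
    pr A (x :: v) = A x * pr A v := by
  simp [pr]

omit [Fintype ι] in
theorem pr_replicate (A : ι ⊕ Bool → E) (n : ℕ) (x : ι ⊕ Bool) :
    pr A (List.replicate n x) = A x ^ n := by
  simp [pr]

omit [Fintype ι] in
theorem pr_nfl (A : ι ⊕ Bool → E) (i k₀ : ℕ) (s : ℕ → ℕ) (l : List ι) :
    pr A (nfl i k₀ s l) = A (Sum.inr false) ^ i * (A (Sum.inr true) ^ k₀ * pr A (insl s l)) := by
  rw [nfl, pr_append, pr_append, pr_replicate, pr_replicate]

omit [Fintype ι] in
theorem xa_pow (A : ι ⊕ Bool → E) (x : ι)
    (hx : A (Sum.inl x) * A (Sum.inr false) = A (Sum.inr true) * A (Sum.inl x)) (n : ℕ) :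
    A (Sum.inl x) * A (Sum.inr false) ^ n = A (Sum.inr true) ^ n * A (Sum.inl x) := by
  induction n with
  | zero => simp
  | succ n ih => rw [pow_succ', ← mul_assoc, hx, mul_assoc, ih, ← mul_assoc, ← pow_succ']

omit [Fintype ι] in
/-- Every word is zero or equal to a standard word. -/
theorem exists_nfl (A : ι ⊕ Bool → E)
    (hza : A (Sum.inr true) * A (Sum.inr false) = 0)
    (hx : ∀ x, A (Sum.inl x) * A (Sum.inr false) = A (Sum.inr true) * A (Sum.inl x))
    (w : List (ι ⊕ Bool)) :
    pr A w = 0 ∨ ∃ i k₀ s l, (nfl i k₀ s l).length = w.length ∧ l.length = mc w ∧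
      pr A w = pr A (nfl i k₀ s l) := by
  induction w with
  | nil => exact Or.inr ⟨0, 0, fun _ => 0, [], by simp [nfl, insl], by simp [mc], by simp [nfl, insl]⟩
  | cons b w ih =>
    rcases ih with ih | ⟨i, k₀, s, l, h1, h2, h3⟩
    · left; rw [pr_cons, ih, mul_zero]
    · rcases b with x | b
      · right
        refine ⟨0, i, consf k₀ s, x :: l, ?_, ?_, ?_⟩
        · simp only [nfl, insl_consf, List.length_append, List.length_replicate,
            List.length_cons] at h1 ⊢
          omega
        · have : mc (Sum.inl x :: w) = mc w + 1 := by simp [mc]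
          rw [this, List.length_cons, h2]
        · rw [pr_cons, h3, pr_nfl, pr_nfl]
          simp only [insl_consf, pr_cons, pr_append, pr_replicate]
          rw [← mul_assoc, xa_pow A x (hx x)]
          simp [mul_assoc]
      · cases b
        · right
          refine ⟨i + 1, k₀, s, l, ?_, ?_, ?_⟩
          · simp only [nfl, List.length_append, List.length_replicate, List.length_cons] at h1 ⊢
            omega
          · have : mc (Sum.inr false :: w) = mc w := by simp [mc]
            rw [this, h2]
          · rw [pr_cons, h3, pr_nfl, pr_nfl, pow_succ']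
            simp [mul_assoc]
        · rcases i with _ | i
          · right
            refine ⟨0, k₀ + 1, s, l, ?_, ?_, ?_⟩
            · simp only [nfl, List.length_append, List.length_replicate, List.length_cons] at h1 ⊢
              omega
            · have : mc (Sum.inr true :: w) = mc w := by simp [mc]
              rw [this, h2]
            · rw [pr_cons, h3, pr_nfl, pr_nfl, pow_succ']
              simp [mul_assoc]
          · left
            rw [pr_cons, h3, pr_nfl, pow_succ', mul_assoc (A (Sum.inr false)), ← mul_assoc, hza,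
              zero_mul]

/-- Span of the words of length `L` with at most `j` old letters. -/
def SW (K : Type u) [Field K] {E : Type u} [Ring E] [Algebra K E] (A : ι ⊕ Bool → E) (L j : ℕ) :
    Submodule K E :=
  Submodule.span K {t | ∃ w : List (ι ⊕ Bool), w.length = L ∧ mc w ≤ j ∧ t = pr A w}

omit [Fintype ι] in
theorem SW_mono (A : ι ⊕ Bool → E) (L : ℕ) {j j' : ℕ} (h : j ≤ j') : SW K A L j ≤ SW K A L j' := by
  refine Submodule.span_mono ?_
  rintro t ⟨w, h1, h2, h3⟩
  exact ⟨w, h1, h2.trans h, h3⟩

omit [Fintype ι] in
theorem SW_mul (A : ι ⊕ Bool → E) (u v : List (ι ⊕ Bool)) (L j : ℕ) (t : E)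
    (ht : t ∈ SW K A L j) :
    pr A u * t * pr A v ∈ SW K A (u.length + L + v.length) (mc u + j + mc v) := by
  let φ : E →ₗ[K] E := (LinearMap.mulLeft K (pr A u)).comp (LinearMap.mulRight K (pr A v))
  have hφ : ∀ x, φ x = pr A u * x * pr A v := fun x => by simp [φ, mul_assoc]
  have : SW K A L j ≤ (SW K A (u.length + L + v.length) (mc u + j + mc v)).comap φ := by
    refine Submodule.span_le.mpr ?_
    rintro t ⟨w, h1, h2, rfl⟩
    change φ (pr A w) ∈ SW K A (u.length + L + v.length) (mc u + j + mc v)
    rw [hφ]
    refine Submodule.subset_span ⟨u ++ w ++ v, ?_, ?_, ?_⟩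
    · simp only [List.length_append, h1]
    · rw [mc_append, mc_append]; omega
    · rw [pr_append, pr_append]
  have := this ht
  rw [Submodule.mem_comap, hφ] at this
  exact this

/-- Reduction of standard words with many old letters. -/
theorem reduce_nfl {κ : Type} (R : κ → ι → ι → K) (N : ℕ) (hN : Nil R N) (A : ι ⊕ Bool → E)
    (hx : ∀ x, A (Sum.inl x) * A (Sum.inr false) = A (Sum.inr true) * A (Sum.inl x))
    (hR : ∀ k, ev (R k) (fun i j => A (Sum.inl i) * A (Sum.inl j)) ∈ SW K A 2 1)
    (i k₀ : ℕ) (s : ℕ → ℕ) (l : List ι) (hl : N ≤ l.length) :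
    pr A (nfl i k₀ s l) ∈ SW K A (nfl i k₀ s l).length (l.length - 1) := by
  by_contra hcon
  obtain ⟨φ, hφ, hker⟩ := Submodule.exists_le_ker_of_notMem hcon
  apply hφ
  have hlen : ∀ l l' : List ι, l.length = l'.length → ∀ s : ℕ → ℕ,
      (insl s l).length = (insl s l').length := by
    intro l
    induction l with
    | nil => intro l' h s; cases l' with
      | nil => rfl
      | cons x l' => simp at h
    | cons x l ih => intro l' h s; cases l' with
      | nil => simp at h
      | cons x' l' =>
        simp only [insl, List.length_cons, List.length_append, List.length_replicate]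
        rw [ih l' (by simpa using h)]
  set t := l.drop N with htdef
  have hdec : l = l.take N ++ t := (List.take_append_drop N l).symm
  have hmain := hN (fun l' => φ (pr A (nfl i k₀ s (l' ++ t)))) ?_ (l.take N)
    (by rw [List.length_take]; omega)
  · rw [hdec]; exact hmain
  intro k l₁ l₂ h12
  have hmap := ev_map φ (R k) (fun x y => pr A (nfl i k₀ s ((l₁ ++ x :: y :: l₂) ++ t)))
  have hz : φ (ev (R k) (fun x y => pr A (nfl i k₀ s ((l₁ ++ x :: y :: l₂) ++ t)))) = 0 := by
    have hmem : ev (R k) (fun x y => pr A (nfl i k₀ s ((l₁ ++ x :: y :: l₂) ++ t))) ∈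
        SW K A (nfl i k₀ s l).length (l.length - 1) := by
      -- factor
      obtain ⟨pre, hpre⟩ : ∃ p, p = List.replicate i (Sum.inr false : ι ⊕ Bool) ++
        (List.replicate k₀ (Sum.inr true) ++ insl s l₁) := ⟨_, rfl⟩
      obtain ⟨post, hpost⟩ : ∃ p, p = List.replicate (s (l₁.length + 1)) (Sum.inr true : ι ⊕ Bool) ++
        insl (fun n => s (n + (l₁.length + 2))) (l₂ ++ t) := ⟨_, rfl⟩
      obtain ⟨m, hm⟩ : ∃ m, m = s l₁.length := ⟨_, rfl⟩
      obtain ⟨post', hpost'⟩ : ∃ p, p = List.replicate m (Sum.inr false : ι ⊕ Bool) ++ post :=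
        ⟨_, rfl⟩
      have hword : ∀ x y, nfl i k₀ s ((l₁ ++ x :: y :: l₂) ++ t) =
          pre ++ (Sum.inl x :: (List.replicate m (Sum.inr true) ++ (Sum.inl y :: post))) := by
        intro x y
        rw [List.append_assoc, nfl, List.cons_append, List.cons_append, insl_split, hpre, hpost, hm]
        simp only [List.append_assoc]
      have hfac : ev (R k) (fun x y => pr A (nfl i k₀ s ((l₁ ++ x :: y :: l₂) ++ t))) =
          pr A pre * ev (R k) (fun x y => A (Sum.inl x) * A (Sum.inl y)) * pr A post' := by
        let ψ : E →ₗ[K] E := (LinearMap.mulLeft K (pr A pre)).comp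
          (LinearMap.mulRight K (pr A post'))
        have hψ : ∀ x, ψ x = pr A pre * x * pr A post' := fun x => by simp [ψ, mul_assoc]
        rw [← hψ, ev_map]
        refine ev_congr _ _ _ (fun x y => ?_)
        rw [hψ, hword, pr_append, pr_cons, pr_append, pr_cons, pr_replicate, hpost', pr_append,
          pr_replicate]
        have := xa_pow A y (hx y) m
        calc pr A pre * (A (Sum.inl x) * (A (Sum.inr true) ^ m * (A (Sum.inl y) * pr A post)))
            = pr A pre * (A (Sum.inl x) * ((A (Sum.inr true) ^ m * A (Sum.inl y)) * pr A post)) := by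
              simp only [mul_assoc]
          _ = pr A pre * (A (Sum.inl x) * ((A (Sum.inl y) * A (Sum.inr false) ^ m) * pr A post)) := by
              rw [this]
          _ = _ := by simp only [mul_assoc]
      rw [hfac]
      have h1 := SW_mul (K := K) A pre post' 2 1 _ (hR k)
      have hL : pre.length + 2 + post'.length = (nfl i k₀ s l).length := by
        have hl' : (nfl i k₀ s l).length = (nfl i k₀ s (l.take N ++ t)).length := by rw [← hdec]
        rw [hl']
        rcases hι : l₁ ++ l₂ ++ l.take N with _ | ⟨x, _⟩
        · -- then N = 2 with no letters: impossible unless l.take N = []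
          have h0 : l.take N = [] := by
            have := congrArg List.length hι
            simp only [List.length_append, List.length_nil] at this
            exact List.length_eq_zero_iff.mp (by omega)
          have : (l.take N).length = N := by rw [List.length_take]; omega
          rw [h0] at this
          simp at this
          omega
        · have h3 := hword x x
          have h4 : (nfl i k₀ s ((l₁ ++ x :: x :: l₂) ++ t)).length =
              (nfl i k₀ s (l.take N ++ t)).length := by
            simp only [nfl, List.length_append]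
            rw [hlen ((l₁ ++ x :: x :: l₂) ++ t) (l.take N ++ t)]
            simp only [List.length_append, List.length_cons, List.length_take]
            omega
          rw [← h4, h3, hpost']
          simp only [List.length_append, List.length_cons, List.length_replicate]
          omega
      have hM : mc pre + 1 + mc post' ≤ l.length - 1 := by
        rw [hpre, hpost', hpost]
        simp only [mc_append, mc_replicate, mc_insl, List.length_append, htdef, List.length_drop]
        omega
      rw [hL] at h1
      exact SW_mono A _ hM h1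
    exact hker hmem
  rw [hmap] at hz
  exact hz

/-- All words lie in the span of words of the same length with less than `N` old letters. -/
theorem mem_SW {κ : Type} (R : κ → ι → ι → K) (N : ℕ) (hN : Nil R N) (A : ι ⊕ Bool → E)
    (hza : A (Sum.inr true) * A (Sum.inr false) = 0)
    (hx : ∀ x, A (Sum.inl x) * A (Sum.inr false) = A (Sum.inr true) * A (Sum.inl x))
    (hR : ∀ k, ev (R k) (fun i j => A (Sum.inl i) * A (Sum.inl j)) ∈ SW K A 2 1)
    (j : ℕ) : ∀ w : List (ι ⊕ Bool), mc w ≤ j → pr A w ∈ SW K A w.length (N - 1) := by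
  induction j with
  | zero =>
    intro w hw
    exact Submodule.subset_span ⟨w, rfl, by omega, rfl⟩
  | succ j ih =>
    intro w hw
    by_cases hlt : mc w ≤ N - 1
    · exact Submodule.subset_span ⟨w, rfl, hlt, rfl⟩
    · rcases exists_nfl A hza hx w with h | ⟨i, k₀, s, l, h1, h2, h3⟩
      · rw [h]; exact Submodule.zero_mem _
      · have h4 := reduce_nfl R N hN A hx hR i k₀ s l (by omega)
        rw [h3]
        rw [h1] at h4
        have h5 : SW K A w.length (l.length - 1) ≤ SW K A w.length (N - 1) := by
          refine Submodule.span_le.mpr ?_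
          rintro t ⟨w', h6, h7, rfl⟩
          have := ih w' (by omega)
          rw [h6] at this
          exact this
        exact h5 h4

omit [Fintype ι] in
theorem insl_bound (A : ι ⊕ Bool → E) (K0 : ℕ) (hz : A (Sum.inr true) ^ K0 = 0)
    (s : ℕ → ℕ) (l : List ι) :
    pr A (insl s l) = 0 ∨ (insl s l).length ≤ l.length * (K0 + 1) := by
  induction l generalizing s with
  | nil => right; simp [insl]
  | cons x l ih =>
    by_cases h : K0 ≤ s 0
    · left
      simp only [insl, pr_cons, pr_append, pr_replicate]
      rw [pow_eq_zero_of_le h hz]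
      simp
    · rcases ih (fun n => s (n + 1)) with ih | ih
      · left
        simp only [insl, pr_cons, pr_append, pr_replicate]
        rw [ih]
        simp
      · right
        simp only [insl, List.length_cons, List.length_append, List.length_replicate]
        have : (l.length + 1) * (K0 + 1) = l.length * (K0 + 1) + (K0 + 1) := by ring
        omega

/-- The finite dimensionality lemma: all long words vanish. -/
theorem fd_lemma {κ : Type} (R : κ → ι → ι → K) (N : ℕ) (hN : Nil R N) (A : ι ⊕ Bool → E)
    (hza : A (Sum.inr true) * A (Sum.inr false) = 0)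
    (hx : ∀ x, A (Sum.inl x) * A (Sum.inr false) = A (Sum.inr true) * A (Sum.inl x))
    (hR : ∀ k, ev (R k) (fun i j => A (Sum.inl i) * A (Sum.inl j)) ∈ SW K A 2 1)
    (K0 : ℕ) (hz : A (Sum.inr true) ^ K0 = 0) (ha : A (Sum.inr false) ^ K0 = 0)
    (w : List (ι ⊕ Bool)) (hw : K0 + K0 + (N + 1) * (K0 + 1) ≤ w.length) : pr A w = 0 := by
  have h1 := mem_SW R N hN A hza hx hR (mc w) w le_rfl
  have h2 : SW K A w.length (N - 1) ≤ ⊥ := by
    refine Submodule.span_le.mpr ?_
    rintro t ⟨w', h3, h4, rfl⟩
    rw [SetLike.mem_coe, Submodule.mem_bot]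
    rcases exists_nfl A hza hx w' with h | ⟨i, k₀, s, l, h5, h6, h7⟩
    · exact h
    · rw [h7, pr_nfl]
      by_cases hi : K0 ≤ i
      · rw [pow_eq_zero_of_le hi ha, zero_mul]
      by_cases hk : K0 ≤ k₀
      · rw [pow_eq_zero_of_le hk hz, zero_mul, mul_zero]
      rcases insl_bound A K0 hz s l with h | h
      · rw [h]; simp
      · exfalso
        have h8 : l.length * (K0 + 1) ≤ N * (K0 + 1) :=
          Nat.mul_le_mul_right _ (by omega)
        have h9 : (N + 1) * (K0 + 1) = N * (K0 + 1) + (K0 + 1) := by ring
        simp only [nfl, List.length_append, List.length_replicate] at h5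
        omega
  simpa using h2 h1

end fd

end Pool.Agent.TH40.Quad
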