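import Mathlib
import Pool.Agent.TH40.QuadD

namespace Pool.Agent.TH40.Quad

universe u

variable {K : Type u} [Field K]

section nil

variable {α κ : Type} [Fintype α]

/-- If all words of length `N` vanish as operators, the relations are nil at length `N`. -/
theorem nil_of_words (R : κ → α → α → K) (N : ℕ)
    (h : ∀ w : List α, w.length = N → (w.map (sh R)).prod = 0) : Nil R N := by
  intro f hf l hl
  classical
  have hmem : (fun l : List α => if l.length = N then f l else 0) ∈ annSub R := by
    intro k l₁ l₂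
    by_cases h12 : l₁.length + l₂.length + 2 = N
    · have := hf k l₁ l₂ h12
      rw [← this]
      refine ev_congr _ _ _ (fun i j => ?_)
      have : (l₁ ++ i :: j :: l₂).length = N := by
        simp only [List.length_append, List.length_cons]; omega
      simp only [this, if_true]
    · have h3 : ev (V := K) (R k) (fun _ _ => (0 : K)) = 0 := ev_zero (R k)
      refine (ev_congr _ _ _ (fun i j => ?_)).trans h3
      have : ¬ (l₁ ++ i :: j :: l₂).length = N := by
        simp only [List.length_append, List.length_cons]; omega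
      simp only [this, if_false]
  have h1 := prod_sh R l ⟨_, hmem⟩ []
  rw [h l hl] at h1
  have h2 : (0 : K) = if ([] ++ l).length = N then f ([] ++ l) else 0 := h1
  rw [List.nil_append, if_pos hl] at h2
  exact h2.symm

end nil

section step

variable {ι κ : Type} [Fintype ι] [DecidableEq ι]

omit [DecidableEq ι] in
theorem ev_mulRight {E : Type u} [Ring E] [Algebra K E] (r : ι → ι → K) (F : ι → ι → E) (x : E) :
    ev r F * x = ev r (fun i j => F i j * x) :=
  ev_map (LinearMap.mulRight K x) r F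

/-- Evaluation of a relation in a ring. -/
def evR {E : Type u} [Ring E] [Algebra K E] (r : ι → ι → K) (F : ι → ι → E) : E := ev r F

omit [DecidableEq ι] in
theorem evR_end {V : Type u} [AddCommGroup V] [Module K V] (r : ι → ι → K)
    (F : ι → ι → Module.End K V) (v : V) : (evR r F) v = ev r (fun i j => F i j v) := by
  unfold evR ev
  simp only [LinearMap.sum_apply, LinearMap.smul_apply]

theorem pow_mul_comm_aux {E : Type u} [Ring E] (A c e : E) (h : c * A = A * e) (m : ℕ) :
    c ^ m * A = A * e ^ m := by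
  induction m with
  | zero => simp
  | succ m ih => rw [pow_succ, mul_assoc, h, ← mul_assoc, ih, mul_assoc, ← pow_succ]

omit [DecidableEq ι] in
/-- Words vanish in a ring where `z²` is nilpotent. -/
theorem words_vanish {E : Type u} [Ring E] [Algebra K E] (R : κ → ι → ι → K) (ξ η : κ → K)
    (N : ℕ) (hN : Nil R N) (hξ : ∃ k, ξ k ≠ 0) (A : ι ⊕ Bool → E)
    (hza : A (Sum.inr true) * A (Sum.inr false) = 0)
    (hxa : ∀ x, A (Sum.inl x) * A (Sum.inr false) = A (Sum.inr true) * A (Sum.inl x))
    (hold : ∀ k, evR (R k) (fun i j => A (Sum.inl i) * A (Sum.inl j)) =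
      ξ k • (A (Sum.inr false) * A (Sum.inr false)) + η k • (A (Sum.inr true) * A (Sum.inr true)))
    (m : ℕ) (hm : (A (Sum.inr true) * A (Sum.inr true)) ^ m = 0) :
    ∃ L, ∀ w : List (ι ⊕ Bool), L ≤ w.length → (w.map A).prod = 0 := by
  unfold evR at hold
  obtain ⟨a, ha⟩ : ∃ a, a = A (Sum.inr false) := ⟨_, rfl⟩
  obtain ⟨z, hz⟩ : ∃ z, z = A (Sum.inr true) := ⟨_, rfl⟩
  rw [← ha, ← hz] at hza
  rw [← hz] at hm
  have hcx : ∀ i, (z * z) * A (Sum.inl i) = A (Sum.inl i) * (a * a) := by
    intro i
    have h := hxa i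
    rw [← ha, ← hz] at h
    rw [mul_assoc, ← h, ← mul_assoc, ← h, mul_assoc]
  have hce : (z * z) * (a * a) = 0 := by
    rw [mul_assoc, ← mul_assoc z a a, hza, zero_mul, mul_zero]
  have hm1 : (z * z) ^ (m + 1) = 0 := by rw [pow_succ, hm, zero_mul]
  have he : (a * a) ^ (m + 2) = 0 := by
    obtain ⟨k, hk⟩ := hξ
    have h1 : ev (R k) (fun i j => A (Sum.inl i) * A (Sum.inl j)) * (a * a) ^ (m + 1) = 0 := by
      refine (ev_mulRight (R k) _ _).trans ?_
      refine (ev_congr _ _ _ (fun i j => ?_)).trans (ev_zero (R k))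
      rw [mul_assoc, ← pow_mul_comm_aux (A (Sum.inl j)) (z * z) (a * a) (hcx j), hm1, zero_mul,
        mul_zero]
    rw [hold k, ← ha, ← hz, add_mul, smul_mul_assoc, smul_mul_assoc, pow_succ',
      ← mul_assoc (z * z), hce, zero_mul, smul_zero, add_zero, ← pow_succ', ← pow_succ'] at h1
    exact (smul_eq_zero.mp h1).resolve_left hk
  have hzK : z ^ (2 * (m + 2)) = 0 := by
    rw [pow_mul, pow_two, pow_succ, hm1, zero_mul]
  have haK : a ^ (2 * (m + 2)) = 0 := by
    rw [pow_mul, pow_two, he]
  refine ⟨2 * (m + 2) + 2 * (m + 2) + (N + 1) * (2 * (m + 2) + 1), fun w hw => ?_⟩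
  refine fd_lemma R N hN A (by rw [← ha, ← hz]; exact hza) hxa (fun k => ?_) (2 * (m + 2))
    (by rw [← hz]; exact hzK) (by rw [← ha]; exact haK) w hw
  rw [hold k]
  refine Submodule.add_mem _ (Submodule.smul_mem _ _ (Submodule.subset_span ?_))
    (Submodule.smul_mem _ _ (Submodule.subset_span ?_))
  · exact ⟨[Sum.inr false, Sum.inr false], rfl, by simp [mc], by simp [pr]⟩
  · exact ⟨[Sum.inr true, Sum.inr true], rfl, by simp [mc], by simp [pr]⟩

/-- The step: a good pair makes the extension nil. -/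
theorem step (R : κ → ι → ι → K) (ξ η : κ → K) (N : ℕ) (hN : Nil R N) (hG : Good R ξ η)
    (hξ : ∃ k, ξ k ≠ 0) (hη : ∃ k, η k ≠ 0) : ∃ N', Nil (extR R ξ η) N' := by
  obtain ⟨m, hm⟩ := c_nilpotent R ξ η hG hη
  have hold : ∀ k, evR (R k)
      (fun i j => sh (extR R ξ η) (Sum.inl i) * sh (extR R ξ η) (Sum.inl j)) =
      ξ k • (sh (extR R ξ η) (Sum.inr false) * sh (extR R ξ η) (Sum.inr false)) +
      η k • (sh (extR R ξ η) (Sum.inr true) * sh (extR R ξ η) (Sum.inr true)) := by
    intro k
    refine LinearMap.ext (fun v => ?_)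
    rw [evR_end]
    exact sh_old R ξ η k v
  obtain ⟨L, hL⟩ := words_vanish (E := Module.End K (annSub (extR R ξ η))) R ξ η N hN hξ
    (sh (extR R ξ η)) (sh_za R ξ η) (sh_xa R ξ η) hold m hm
  exact ⟨L, nil_of_words _ L (fun w hw => hL w hw.ge)⟩

/-- New `X`-values. -/
def xiE (ξ η : κ → K) : κ ⊕ Option ι → K
  | Sum.inl k => ξ k + η k
  | Sum.inr none => 1
  | Sum.inr (some _) => 0

/-- New `Y`-values. -/
def etE (η : κ → K) : κ ⊕ Option ι → K
  | Sum.inl k => η k
  | Sum.inr _ => 0

/-- The recursion for good pairs. -/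
theorem good_ext (R : κ → ι → ι → K) (ξ η : κ → K) (hG : Good R ξ η) :
    Good (extR R ξ η) (xiE (ι := ι) ξ η) (etE (ι := ι) η) := by
  intro X Y _ _ _ _ p q hX hY
  set a : ι ⊕ Bool := Sum.inr false with ha
  set z : ι ⊕ Bool := Sum.inr true with hz
  have hzaX : ∀ x, q z (p a x) = x := by
    intro x
    have := hX (Sum.inr none) x
    rw [ev_ext_za] at this
    simpa [xiE] using this
  have hzaY : ∀ y, p z (q a y) = 0 := by
    intro y
    have := hY (Sum.inr none) y
    rw [ev_ext_za] at this
    simpa [etE] using this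
  have hxaX : ∀ i x, q (Sum.inl i) (p a x) = q z (p (Sum.inl i) x) := by
    intro i x
    have := hX (Sum.inr (some i)) x
    rw [ev_ext_xa] at this
    simp only [xiE, zero_smul] at this
    exact sub_eq_zero.mp this
  have hoX : ∀ k x, ev (R k) (fun i j => q (Sum.inl i) (p (Sum.inl j) x)) =
      (ξ k + η k) • x + η k • q z (p z x) + ξ k • q a (p a x) := by
    intro k x
    have := hX (Sum.inl k) x
    rw [ev_ext_old] at this
    simp only [xiE] at this
    rw [← this]; abel
  have hoY : ∀ k y, ev (R k) (fun i j => p (Sum.inl i) (q (Sum.inl j) y)) =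
      η k • y + η k • p z (q z y) + ξ k • p a (q a y) := by
    intro k y
    have := hY (Sum.inl k) y
    rw [ev_ext_old] at this
    simp only [etE] at this
    rw [← this]; abel
  -- the projection to `ker (q z)`
  let Y1 : Submodule K Y := LinearMap.ker (q z)
  let f : Y →ₗ[K] Y1 := LinearMap.codRestrict Y1 (LinearMap.id - (p a).comp (q z)) (fun y => by
    rw [LinearMap.mem_ker]
    simp [hzaX])
  have hf : ∀ y, (f y : Y) = y - p a (q z y) := fun y => rfl
  have hfa : ∀ x, f (p a x) = 0 := by
    intro x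
    apply Subtype.ext
    rw [hf, hzaX]; simp
  have hf1 : ∀ y : Y1, f (y : Y) = y := by
    intro y
    apply Subtype.ext
    rw [hf]
    have : q z (y : Y) = 0 := y.2
    rw [this]; simp
  refine hG X Y1 (fun i => f.comp (p (Sum.inl i))) (fun i => (q (Sum.inl i)).comp Y1.subtype) ?_ ?_
  · intro k x
    have h1 : ∀ i j, ((q (Sum.inl i)).comp Y1.subtype) ((f.comp (p (Sum.inl j))) x) =
        q (Sum.inl i) (p (Sum.inl j) x) - q z (p (Sum.inl i) (q (Sum.inl j) (p a x))) := by
      intro i j
      change q (Sum.inl i) (f (p (Sum.inl j) x) : Y) = _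
      rw [hf, map_sub, hxaX i, hxaX j]
    have h2 : ev (R k) (fun i j => ((q (Sum.inl i)).comp Y1.subtype) ((f.comp (p (Sum.inl j))) x)) =
        ev (R k) (fun i j => q (Sum.inl i) (p (Sum.inl j) x)) -
        q z (ev (R k) (fun i j => p (Sum.inl i) (q (Sum.inl j) (p a x)))) := by
      rw [ev_map]
      simp only [ev, h1, smul_sub, Finset.sum_sub_distrib]
    rw [h2, hoX, hoY]
    simp only [map_add, map_smul, hzaX, add_smul]
    abel
  · intro k y
    have h2 : ev (R k) (fun i j => (f.comp (p (Sum.inl i))) (((q (Sum.inl j)).comp Y1.subtype) y)) =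
        f (ev (R k) (fun i j => p (Sum.inl i) (q (Sum.inl j) (y : Y)))) := by
      rw [ev_map]; rfl
    rw [h2, hoY]
    have h3 : q z (y : Y) = 0 := y.2
    simp only [map_add, map_smul, h3, map_zero, smul_zero, add_zero, hfa, hf1]

end step

end Pool.Agent.TH40.Quad
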