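import Mathlib
import Pool.Agent.TH40.QuadE

namespace Pool.Agent.TH40.Quad

universe u

variable {K : Type u} [Field K]

section base2

/-- Two letters `p = false`, `q = true`, relations `q p` and `p p - q q`. -/
def R2 : Bool → Bool → Bool → K
  | false, true, false => 1
  | true, false, false => 1
  | true, true, true => -1
  | _, _, _ => 0

variable {V : Type u} [AddCommGroup V] [Module K V]

theorem ev_R2_f (f : Bool → Bool → V) : ev (R2 (K := K) false) f = f true false := by
  simp [ev, R2]

theorem ev_R2_t (f : Bool → Bool → V) :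
    ev (R2 (K := K) true) f = f false false - f true true := by
  simp [ev, R2]
  abel

theorem nil_R2 : Nil (R2 (K := K)) 3 := by
  intro f hf l hl
  have h1 : ∀ l₁ l₂ : List Bool, l₁.length + l₂.length + 2 = 3 →
      f (l₁ ++ true :: false :: l₂) = 0 := by
    intro l₁ l₂ h
    have := hf false l₁ l₂ h
    rwa [ev_R2_f] at this
  have h2 : ∀ l₁ l₂ : List Bool, l₁.length + l₂.length + 2 = 3 →
      f (l₁ ++ false :: false :: l₂) = f (l₁ ++ true :: true :: l₂) := by
    intro l₁ l₂ h
    have := hf true l₁ l₂ h
    rw [ev_R2_t] at this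
    exact sub_eq_zero.mp this
  have e1 := h1 [] [false] rfl
  have e2 := h1 [] [true] rfl
  have e3 := h1 [false] [] rfl
  have e4 := h1 [true] [] rfl
  have g1 := h2 [] [false] rfl
  have g2 := h2 [] [true] rfl
  have g3 := h2 [false] [] rfl
  have g4 := h2 [true] [] rfl
  simp only [List.nil_append, List.cons_append] at e1 e2 e3 e4 g1 g2 g3 g4
  match l, hl with
  | [b₁, b₂, b₃], _ =>
    cases b₁ <;> cases b₂ <;> cases b₃
    · rw [g1, e4]
    · rw [g2, ← g4, e1]
    · exact e3
    · rw [← g3, g1, e4]
    · exact e1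
    · exact e2
    · exact e4
    · rw [← g4, e1]

/-- The good pair for `R2`, values on `X`. -/
def xi2 : Bool → K
  | false => 1
  | true => 0

/-- The good pair for `R2`, values on `Y`. -/
def et2 : Bool → K
  | false => 0
  | true => 1

theorem good_R2 : Good (R2 (K := K)) xi2 et2 := by
  intro X Y _ _ _ _ p q hX hY x
  have h1 : ∀ x, q true (p false x) = x := by
    intro x
    have := hX false x
    rw [ev_R2_f] at this
    simpa [xi2] using this
  have h2 : ∀ x, q false (p false x) = q true (p true x) := by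
    intro x
    have := hX true x
    rw [ev_R2_t] at this
    simp only [xi2, zero_smul] at this
    exact sub_eq_zero.mp this
  have h3 : ∀ y, p false (q false y) - p true (q true y) = y := by
    intro y
    have := hY true y
    rw [ev_R2_t] at this
    simpa [et2] using this
  have h4 := congrArg (q true) (h3 (p false x))
  have h5 := h1 (q false (p false x))
  have h6 := h1 x
  rw [map_sub, h5, h6, h2 x, sub_self] at h4
  exact h4.symm

end base2

section base3

/-- Three letters `w = inl ()`, `a = inr false`, `z = inr true`, relations `z a`,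
`w w - z w - a w + a a + z z`, and `w a - z w`. -/
def R3 : Option Bool → Unit ⊕ Bool → Unit ⊕ Bool → K
  | none, Sum.inr true, Sum.inr false => 1
  | some false, Sum.inl _, Sum.inl _ => 1
  | some false, Sum.inr true, Sum.inl _ => -1
  | some false, Sum.inr false, Sum.inl _ => -1
  | some false, Sum.inr false, Sum.inr false => 1
  | some false, Sum.inr true, Sum.inr true => 1
  | some true, Sum.inl _, Sum.inr false => 1
  | some true, Sum.inr true, Sum.inl _ => -1
  | _, _, _ => 0

variable {V : Type u} [AddCommGroup V] [Module K V]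

theorem ev_R3_n (f : Unit ⊕ Bool → Unit ⊕ Bool → V) :
    ev (R3 (K := K) none) f = f (Sum.inr true) (Sum.inr false) := by
  simp [ev, R3, Fintype.sum_sum_type]

theorem ev_R3_f (f : Unit ⊕ Bool → Unit ⊕ Bool → V) :
    ev (R3 (K := K) (some false)) f = f (Sum.inl ()) (Sum.inl ()) - f (Sum.inr true) (Sum.inl ())
      - f (Sum.inr false) (Sum.inl ()) + f (Sum.inr false) (Sum.inr false)
      + f (Sum.inr true) (Sum.inr true) := by
  simp [ev, R3, Fintype.sum_sum_type]
  abel

theorem ev_R3_t (f : Unit ⊕ Bool → Unit ⊕ Bool → V) :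
    ev (R3 (K := K) (some true)) f = f (Sum.inl ()) (Sum.inr false)
      - f (Sum.inr true) (Sum.inl ()) := by
  simp [ev, R3, Fintype.sum_sum_type]
  abel

theorem ring_R3_z {E : Type u} [Ring E] (w a z : E) (hza : z * a = 0) (hwa : w * a = z * w)
    (hww : w * w = z * w + a * w - a * a - z * z) : z ^ 5 = 0 ∧ a ^ 5 = 0 := by
  have h1 : w * z * w = z * z * w + a * z * w - a * a * a := by
    calc w * z * w = w * (w * a) := by rw [hwa, mul_assoc]
      _ = (w * w) * a := by rw [mul_assoc]
      _ = z * (w * a) + a * (w * a) - a * a * a - z * (z * a) := by rw [hww]; noncomm_ring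
      _ = z * z * w + a * z * w - a * a * a := by rw [hwa, hza]; noncomm_ring
  have h2 : w * z * z = z * z * w + a * z * z := by
    have e1 : w * (w * w) = (w * w) * w := by rw [mul_assoc]
    have e2 : w * (w * w) = w * z * w + (w * a) * w - (w * a) * a - w * z * z := by
      rw [hww]; noncomm_ring
    have e3 : (w * w) * w = z * (w * w) + a * (w * w) - a * a * w - z * z * w := by
      nth_rewrite 1 [hww]; noncomm_ring
    have e4 : (w * a) * a = z * z * w := by rw [hwa, mul_assoc, hwa, mul_assoc]
    have e5 : (w * a) * w = z * (w * w) := by rw [hwa, mul_assoc]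
    have e6 : a * (w * w) = a * z * w + a * a * w - a * a * a - a * z * z := by
      rw [hww]; noncomm_ring
    rw [e4, e5, h1] at e2
    rw [e6] at e3
    rw [e2, e3] at e1
    have e7 : z * z * w + a * z * w - a * a * a + z * (w * w) - z * z * w - w * z * z -
      (z * (w * w) + (a * z * w + a * a * w - a * a * a - a * z * z) - a * a * w - z * z * w) = 0 :=
      sub_eq_zero.mpr e1
    have e8 : w * z * z - (z * z * w + a * z * z) = 0 := by
      rw [← neg_eq_zero, ← e7]; noncomm_ring
    exact sub_eq_zero.mp e8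
  have h3 : z * z * z * w = 0 := by
    have e1 : (w * z * z) * a = 0 := by rw [mul_assoc (w * z), hza, mul_zero]
    rw [h2, add_mul, mul_assoc (z * z), hwa, mul_assoc (a * z), hza, mul_zero, add_zero,
      ← mul_assoc] at e1
    exact e1
  have h4 : z ^ 5 = 0 := by
    have e1 : z * z * z * w * w = 0 := by rw [h3, zero_mul]
    have e2 : z * z * z * (w * w) = z * (z * z * z * w) + z * z * (z * a) * w
        - z * z * (z * a) * a - z ^ 5 := by
      rw [hww]; noncomm_ring
    rw [mul_assoc, e2, h3, hza] at e1
    simpa using e1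
  have h5 : w * (a * a * a) = 0 := by
    have e1 : w * (a * a * a) = (w * a) * (a * a) := by simp only [mul_assoc]
    have e2 : z * w * (a * a) = z * ((w * a) * a) := by simp only [mul_assoc]
    have e3 : z * (z * w * a) = z * z * (w * a) := by simp only [mul_assoc]
    rw [e1, hwa, e2, hwa, e3, hwa, ← h3]
    simp only [mul_assoc]
  have h6 : a ^ 5 = 0 := by
    have e1 : (w * w) * (a * a * a) = 0 := by rw [mul_assoc, h5, mul_zero]
    have e2 : (w * w) * (a * a * a) = z * (w * (a * a * a)) + a * (w * (a * a * a))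
        - a ^ 5 - z * (z * a) * a * a := by
      rw [hww]; noncomm_ring
    rw [e2, h5, hza] at e1
    simpa using e1
  exact ⟨h4, h6⟩

theorem nil_one : Nil (fun (_ : Unit) (_ : Unit) (_ : Unit) => (1 : K)) 2 := by
  intro f hf l hl
  match l, hl with
  | [b₁, b₂], _ =>
    have := hf () [] [] rfl
    simpa [ev] using this

theorem words_R3 {E : Type u} [Ring E] [Algebra K E] (A : Unit ⊕ Bool → E)
    (hza : A (Sum.inr true) * A (Sum.inr false) = 0)
    (hwa : A (Sum.inl ()) * A (Sum.inr false) = A (Sum.inr true) * A (Sum.inl ()))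
    (hww : A (Sum.inl ()) * A (Sum.inl ()) =
      A (Sum.inr true) * A (Sum.inl ()) + A (Sum.inr false) * A (Sum.inl ())
      - A (Sum.inr false) * A (Sum.inr false) - A (Sum.inr true) * A (Sum.inr true))
    (w : List (Unit ⊕ Bool)) (hw : 5 + 5 + (2 + 1) * (5 + 1) ≤ w.length) :
    (w.map A).prod = 0 := by
  obtain ⟨hz, ha⟩ := ring_R3_z (A (Sum.inl ())) (A (Sum.inr false)) (A (Sum.inr true)) hza hwa hww
  refine fd_lemma (K := K) (fun (_ : Unit) (_ : Unit) (_ : Unit) => (1 : K)) 2 nil_one A hza
    (fun _ => hwa) (fun _ => ?_) 5 hz ha w hw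
  have h2 : ev (K := K) (fun (_ : Unit) (_ : Unit) => (1 : K))
      (fun i j : Unit => A (Sum.inl i) * A (Sum.inl j)) = A (Sum.inl ()) * A (Sum.inl ()) := by
    simp [ev]
  rw [h2, hww]
  have hm : ∀ x y : Unit ⊕ Bool, mc [x, y] ≤ 1 → A x * A y ∈ SW K A 2 1 := by
    intro x y h
    exact Submodule.subset_span ⟨[x, y], rfl, h, by simp [pr]⟩
  exact Submodule.sub_mem _ (Submodule.sub_mem _ (Submodule.add_mem _
    (hm (Sum.inr true) (Sum.inl ()) (by simp [mc])) (hm (Sum.inr false) (Sum.inl ()) (by simp [mc])))
    (hm (Sum.inr false) (Sum.inr false) (by simp [mc]))) (hm (Sum.inr true) (Sum.inr true) (by simp [mc]))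

theorem nil_R3 : Nil (R3 (K := K)) (5 + 5 + (2 + 1) * (5 + 1)) := by
  have hza : sh (R3 (K := K)) (Sum.inr true) * sh R3 (Sum.inr false) = 0 := by
    ext1 v
    have := rel_sh (R3 (K := K)) none v
    rw [ev_R3_n] at this
    exact this
  have hwa : sh (R3 (K := K)) (Sum.inl ()) * sh R3 (Sum.inr false) =
      sh R3 (Sum.inr true) * sh R3 (Sum.inl ()) := by
    ext1 v
    have := rel_sh (R3 (K := K)) (some true) v
    rw [ev_R3_t] at this
    exact sub_eq_zero.mp this
  have hww : sh (R3 (K := K)) (Sum.inl ()) * sh R3 (Sum.inl ()) =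
      sh R3 (Sum.inr true) * sh R3 (Sum.inl ()) + sh R3 (Sum.inr false) * sh R3 (Sum.inl ())
      - sh R3 (Sum.inr false) * sh R3 (Sum.inr false)
      - sh R3 (Sum.inr true) * sh R3 (Sum.inr true) := by
    ext1 v
    have := rel_sh (R3 (K := K)) (some false) v
    rw [ev_R3_f] at this
    simp only [LinearMap.sub_apply, LinearMap.add_apply, Module.End.mul_apply]
    rw [← sub_eq_zero, ← this]
    abel
  exact nil_of_words (R3 (K := K)) _ (fun w hw =>
    words_R3 (K := K) (E := Module.End K (annSub (R3 (K := K)))) (sh R3) hza hwa hww w hw.ge)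

end base3

end Pool.Agent.TH40.Quad
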