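import Mathlib
import Pool.Agent.TH40.QuadF

namespace Pool.Agent.TH40.Quad

universe u

variable {K : Type u} [Field K]

section good3

theorem ring_good3 {E : Type u} [Ring E] (W Z A B C : E)
    (h1 : Z * A = 0) (h2 : W * A = Z * W) (h3 : W * C = Z * B)
    (h4 : B - W - C + A + Z = 0)
    (h5 : W * W - Z * W - W + A + Z = 1)
    (h6 : W * B - Z * B - B + C + Z * W = W) : (1 : E) = 0 := by
  have sA : A = 1 - W * W + Z * W + W - Z := by
    have := h5
    linear_combination (norm := noncomm_ring) this
  have sC : C = B - W + A + Z := by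
    linear_combination (norm := noncomm_ring) (-1 : ℤ) • h4
  have s3 : W * B - Z * B = W * W - Z * W - W * Z := by
    have := h3
    rw [sC, mul_add, mul_add, mul_sub, h2] at this
    linear_combination (norm := noncomm_ring) this
  have s6 : W * Z = Z * W + 1 - W := by
    have e := h6
    rw [sC] at e
    have e2 : W * B - Z * B = W + W - A - Z - Z * W := by
      linear_combination (norm := noncomm_ring) e
    rw [s3, sA] at e2
    linear_combination (norm := noncomm_ring) (-1 : ℤ) • e2
  obtain ⟨U, hU⟩ : ∃ U, U = W - 1 := ⟨_, rfl⟩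
  have hW : W = U + 1 := by rw [hU]; noncomm_ring
  have t6 : U * Z = Z * U - U := by
    rw [hW] at s6
    linear_combination (norm := noncomm_ring) s6
  have t7 : Z * (U * U) - Z = U * U * U + 3 • (U * U) - 1 := by
    have e := h2
    rw [sA] at e
    have e2 : W * (1 - W * W + Z * W + W - Z) = W - W * W * W + (W * Z) * W + W * W - W * Z := by
      noncomm_ring
    rw [e2, s6, hW] at e
    linear_combination (norm := noncomm_ring) e
  have t8 : Z * Z * U = Z * (U * U) + Z * U - Z := by
    have e := h1
    rw [sA, hW] at e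
    linear_combination (norm := noncomm_ring) e
  have t9 : U * U * U = U := by
    -- multiply t7 by U on the left
    have e1 : U * (Z * (U * U) - Z) = U * (U * U * U + 3 • (U * U) - 1) := by rw [t7]
    have e2 : U * (Z * (U * U) - Z) = (U * Z) * (U * U) - U * Z := by noncomm_ring
    rw [e2, t6] at e1
    have e3 : (Z * (U * U) - Z) * U = (U * U * U + 3 • (U * U) - 1) * U := by rw [t7]
    have e4 : (Z * U - U) * (U * U) - (Z * U - U) = (Z * (U * U) - Z) * U - U * (U * U) + U := by
      noncomm_ring
    rw [e4, e3] at e1
    linear_combination (norm := noncomm_ring) (-1 : ℤ) • e1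
  have t10 : U * U = -(2 • U) := by
    have e3 : (Z * (U * U) - Z) * U = (U * U * U + 3 • (U * U) - 1) * U := by rw [t7]
    have e4 : (Z * (U * U) - Z) * U = Z * (U * U * U) - Z * U := by noncomm_ring
    have e5 : (U * U * U + 3 • (U * U) - 1) * U = (U * U * U) * U + 3 • (U * U * U) - U := by
      noncomm_ring
    rw [e4, e5, t9, sub_self] at e3
    linear_combination (norm := noncomm_ring) (-1 : ℤ) • e3
  have t11 : 3 • U = 0 := by
    have e := t9
    rw [t10] at e
    have e2 : -(2 • U) * U = -(2 • (U * U)) := by noncomm_ring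
    rw [e2, t10] at e
    linear_combination (norm := noncomm_ring) e
  have t12 : U * U = U := by
    rw [t10]
    linear_combination (norm := noncomm_ring) (-1 : ℤ) • t11
  have t13 : Z * U - Z = U - 1 := by
    have e := t7
    rw [t9, t12, t11, add_zero] at e
    exact e
  have t14 : Z * Z * U = Z * U + Z * U - Z := by
    have e := t8
    rw [t12] at e
    exact e
  have t15 : Z * U = Z := by
    have e : Z * Z * U * U = (Z * U + Z * U - Z) * U := by rw [t14]
    have e2 : Z * Z * U * U = Z * Z * (U * U) := by noncomm_ring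
    have e3 : (Z * U + Z * U - Z) * U = Z * (U * U) + Z * (U * U) - Z * U := by noncomm_ring
    rw [e2, e3, t12, t14] at e
    linear_combination (norm := noncomm_ring) e
  have t16 : U = 1 := by
    rw [t15, sub_self] at t13
    exact (sub_eq_zero.mp t13.symm)
  rw [t16, one_mul, mul_one] at t6
  have : Z - (Z - 1) = 0 := by rw [← t6, sub_self]
  have e : (1 : E) = Z - (Z - 1) := by noncomm_ring
  rw [e, this]

/-- The good pair for `R3`, values on `X`. -/
def xi3 : Option Bool → K
  | none => 1
  | some _ => 0

/-- The good pair for `R3`, values on `Y`. -/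
def et3 : Option Bool → K
  | some false => 1
  | _ => 0

theorem good_R3 : Good (R3 (K := K)) xi3 et3 := by
  intro X Y _ _ _ _ p q hX hY
  obtain ⟨w, hw⟩ : ∃ w : Unit ⊕ Bool, w = Sum.inl () := ⟨_, rfl⟩
  obtain ⟨a, ha⟩ : ∃ a : Unit ⊕ Bool, a = Sum.inr false := ⟨_, rfl⟩
  obtain ⟨z, hz⟩ : ∃ z : Unit ⊕ Bool, z = Sum.inr true := ⟨_, rfl⟩
  have hzaX : ∀ x, q z (p a x) = x := by
    intro x
    have := hX none x
    rw [ev_R3_n, ← ha, ← hz] at this
    simpa [xi3] using this
  have hzaY : ∀ y, p z (q a y) = 0 := by
    intro y
    have := hY none y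
    rw [ev_R3_n, ← ha, ← hz] at this
    simpa [et3] using this
  have hwaX : ∀ x, q w (p a x) = q z (p w x) := by
    intro x
    have := hX (some true) x
    rw [ev_R3_t, ← ha, ← hz, ← hw] at this
    simp only [xi3, zero_smul] at this
    exact sub_eq_zero.mp this
  have hwaY : ∀ y, p w (q a y) = p z (q w y) := by
    intro y
    have := hY (some true) y
    rw [ev_R3_t, ← ha, ← hz, ← hw] at this
    simp only [et3, zero_smul] at this
    exact sub_eq_zero.mp this
  have hrX : ∀ x, q w (p w x) - q z (p w x) - q a (p w x) + q a (p a x) + q z (p z x) = 0 := by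
    intro x
    have := hX (some false) x
    rw [ev_R3_f, ← ha, ← hz, ← hw] at this
    simpa [xi3] using this
  have hrY : ∀ y, p w (q w y) - p z (q w y) - p a (q w y) + p a (q a y) + p z (q z y) = y := by
    intro y
    have := hY (some false) y
    rw [ev_R3_f, ← ha, ← hz, ← hw] at this
    simpa [et3] using this
  have key := ring_good3 (E := Module.End K X) ((q z).comp (p w)) ((q z).comp (p z))
    ((q a).comp (p a)) ((q w).comp (p w)) ((q a).comp (p w)) ?_ ?_ ?_ ?_ ?_ ?_
  · intro x
    have := LinearMap.congr_fun key x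
    simpa using this
  · refine LinearMap.ext (fun x => ?_)
    change q z (p z (q a (p a x))) = 0
    rw [hzaY, map_zero]
  · refine LinearMap.ext (fun x => ?_)
    change q z (p w (q a (p a x))) = q z (p z (q z (p w x)))
    rw [hwaY, hwaX]
  · refine LinearMap.ext (fun x => ?_)
    change q z (p w (q a (p w x))) = q z (p z (q w (p w x)))
    rw [hwaY]
  · refine LinearMap.ext (fun x => ?_)
    exact hrX x
  · refine LinearMap.ext (fun x => ?_)
    have h := congrArg (q z) (hrY (p a x))
    simp only [map_add, map_sub, hzaX, hwaX] at h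
    exact h
  · refine LinearMap.ext (fun x => ?_)
    have h := congrArg (q z) (hrY (p w x))
    simp only [map_add, map_sub, hzaX] at h
    exact h

end good3

end Pool.Agent.TH40.Quad
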