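import Mathlib
import Pool.Agent.TH40.QuadG

namespace Pool.Agent.TH40.Quad

universe u

section adm

variable (K : Type u) [Field K]

/-- There are `d` quadratic relations on `n` letters which are nil and have a good pair. -/
def Adm (n d : ℕ) : Prop :=
  ∃ (ι κ : Type) (_ : Fintype ι) (_ : DecidableEq ι) (_ : Fintype κ),
    Fintype.card ι = n ∧ Fintype.card κ = d ∧
    ∃ (R : κ → ι → ι → K) (ξ η : κ → K) (N : ℕ), Nil R N ∧ Good R ξ η ∧
      (∃ k, ξ k ≠ 0) ∧ ∃ k, η k ≠ 0

theorem adm_step {n d : ℕ} (h : Adm K n d) : Adm K (n + 2) (d + (n + 1)) := by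
  obtain ⟨ι, κ, _, _, _, hι, hκ, R, ξ, η, N, hN, hG, hξ, hη⟩ := h
  obtain ⟨N', hN'⟩ := step R ξ η N hN hG hξ hη
  refine ⟨ι ⊕ Bool, κ ⊕ Option ι, inferInstance, inferInstance, inferInstance, ?_, ?_,
    extR R ξ η, xiE ξ η, etE η, N', hN', good_ext R ξ η hG, ⟨Sum.inr none, one_ne_zero⟩, ?_⟩
  · simp [hι]
  · simp [hι, hκ]
  · obtain ⟨k, hk⟩ := hη
    exact ⟨Sum.inl k, hk⟩

theorem adm_two : Adm K 2 2 :=
  ⟨Bool, Bool, inferInstance, inferInstance, inferInstance, rfl, rfl, R2, xi2, et2, 3,
    nil_R2, good_R2, ⟨false, one_ne_zero⟩, ⟨true, one_ne_zero⟩⟩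

theorem adm_three : Adm K 3 3 :=
  ⟨Unit ⊕ Bool, Option Bool, inferInstance, inferInstance, inferInstance, rfl, rfl, R3, xi3, et3,
    _, nil_R3, good_R3, ⟨none, one_ne_zero⟩, ⟨some false, one_ne_zero⟩⟩

theorem adm_all (m : ℕ) : Adm K (m + 2) ((m + 2) ^ 2 / 4 + 1) := by
  induction m using Nat.strong_induction_on with
  | _ m ih =>
    match m with
    | 0 => exact adm_two K
    | 1 => exact adm_three K
    | m + 2 =>
      have h := adm_step K (ih m (by omega))
      have e : (m + 2) ^ 2 / 4 + 1 + (m + 2 + 1) = (m + 2 + 2) ^ 2 / 4 + 1 := by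
        have e1 : (m + 2 + 2) ^ 2 = (m + 2) ^ 2 + (m + 2 + 1) * 4 := by ring
        rw [e1, Nat.add_mul_div_right _ _ (by norm_num)]
        ring
      rwa [e] at h

variable {K}

/-- Transport of nil relations to `Fin`, with room for more relations. -/
theorem nil_transport {ι κ : Type} [Fintype ι] [Fintype κ] (R : κ → ι → ι → K) (N n d : ℕ)
    (hN : Nil R N) (e : Fin n ≃ ι) (c : κ → Fin d) (R' : Fin d → Fin n → Fin n → K)
    (hR' : ∀ k i j, R' (c k) i j = R k (e i) (e j)) : Nil R' N := by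
  intro f hf l hl
  have h := hN (fun l => f (l.map e.symm)) ?_ (l.map e) (by simpa using hl)
  · simpa using h
  intro k l₁ l₂ h12
  have h1 := hf (c k) (l₁.map e.symm) (l₂.map e.symm) (by simpa using h12)
  rw [← h1]
  unfold ev
  refine (Fintype.sum_equiv e _ _ (fun i => ?_)).symm
  refine Fintype.sum_equiv e _ _ (fun j => ?_)
  rw [hR']
  simp

/-- Relations exist as soon as `4 d > n²`. -/
theorem exists_nil (n d : ℕ) (h : n ^ 2 < 4 * d) :
    ∃ (d₀ : ℕ) (R : Fin d₀ → Fin n → Fin n → K) (N : ℕ), d₀ ≤ d ∧ Nil R N := by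
  match n with
  | 0 =>
    refine ⟨0, fun k => k.elim0, 1, Nat.zero_le _, ?_⟩
    intro f hf l hl
    match l, hl with
    | [x], _ => exact x.elim0
  | 1 =>
    refine ⟨1, fun _ _ _ => 1, 2, by omega, ?_⟩
    intro f hf l hl
    match l, hl with
    | [x, y], _ =>
      have := hf 0 [] [] rfl
      have hx : x = 0 := Subsingleton.elim _ _
      have hy : y = 0 := Subsingleton.elim _ _
      subst hx hy
      simpa [ev] using this
  | m + 2 =>
    obtain ⟨ι, κ, _, _, _, hι, hκ, R, ξ, η, N, hN, -⟩ := adm_all K m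
    refine ⟨(m + 2) ^ 2 / 4 + 1, ?_⟩
    let eι : Fin (m + 2) ≃ ι := (Fintype.equivFinOfCardEq hι).symm
    let eκ : κ ≃ Fin ((m + 2) ^ 2 / 4 + 1) := Fintype.equivFinOfCardEq hκ
    refine ⟨fun k i j => R (eκ.symm k) (eι i) (eι j), N, by omega, ?_⟩
    exact nil_transport R N _ _ hN eι eκ _ (fun k i j => by simp)

/-- A nil family may be enlarged. -/
theorem nil_of_span {ι κ κ' : Type} [Fintype ι] (R : κ → ι → ι → K) (R' : κ' → ι → ι → K)
    (N : ℕ) (hN : Nil R N) (h : ∀ k, R k ∈ Submodule.span K (Set.range R')) : Nil R' N := by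
  intro f hf
  refine hN f (fun k l₁ l₂ h12 => ?_)
  let φ : (ι → ι → K) →ₗ[K] K :=
    { toFun := fun r => ev (V := K) r (fun i j => f (l₁ ++ i :: j :: l₂))
      map_add' := by
        intro r r'
        simp only [ev, Pi.add_apply, add_smul, Finset.sum_add_distrib]
      map_smul' := by
        intro a r
        simp only [ev, Pi.smul_apply, smul_eq_mul, mul_assoc, Finset.mul_sum, RingHom.id_apply] }
  have h1 : Submodule.span K (Set.range R') ≤ LinearMap.ker φ := by
    refine Submodule.span_le.mpr ?_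
    rintro _ ⟨k', rfl⟩
    exact hf k' l₁ l₂ h12
  exact h1 (h k)

/-- Enlarging a subspace to a prescribed dimension. -/
theorem exists_enlarge {M : Type u} [AddCommGroup M] [Module K M] [FiniteDimensional K M]
    (W : Submodule K M) (d : ℕ) (h1 : Module.finrank K W ≤ d) (h2 : d ≤ Module.finrank K M) :
    ∃ W' : Submodule K M, W ≤ W' ∧ Module.finrank K W' = d := by
  obtain ⟨m, hm⟩ : ∃ m, d = Module.finrank K W + m := ⟨d - Module.finrank K W, by omega⟩
  induction m generalizing d with
  | zero => exact ⟨W, le_rfl, by omega⟩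
  | succ m ih =>
    obtain ⟨W', hW', hd⟩ := ih (d - 1) (by omega) (by omega) (by omega)
    have hne : W' ≠ ⊤ := by
      intro h
      rw [h, finrank_top] at hd
      omega
    obtain ⟨v, hv⟩ : ∃ v, v ∉ W' := by
      by_contra hcon
      push Not at hcon
      exact hne (Submodule.eq_top_iff'.mpr hcon)
    refine ⟨W' ⊔ Submodule.span K {v}, hW'.trans le_sup_left, ?_⟩
    have h3 := Submodule.finrank_sup_add_finrank_inf_eq W' (Submodule.span K {v})
    have hv0 : v ≠ 0 := fun h => hv (h ▸ W'.zero_mem)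
    have h4 : W' ⊓ Submodule.span K {v} = ⊥ := by
      rw [Submodule.eq_bot_iff]
      rintro x ⟨hx1, hx2⟩
      obtain ⟨c, rfl⟩ := Submodule.mem_span_singleton.mp hx2
      by_contra hne0
      have hc : c ≠ 0 := fun h => hne0 (by rw [h, zero_smul])
      apply hv
      have := W'.smul_mem c⁻¹ hx1
      rwa [smul_smul, inv_mul_cancel₀ hc, one_smul] at this
    rw [h4, finrank_bot, finrank_span_singleton hv0, hd] at h3
    omega

/-- The final family, linearly independent whenever possible. -/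
theorem exists_family (n d : ℕ) (h : n ^ 2 < 4 * d) :
    ∃ (R : Fin d → Fin n → Fin n → K) (N : ℕ), (d ≤ n ^ 2 → LinearIndependent K R) ∧ Nil R N := by
  obtain ⟨d₀, R, N, hd, hN⟩ := exists_nil (K := K) n d h
  by_cases hdn : d ≤ n ^ 2
  · have hfr : Module.finrank K (Fin n → Fin n → K) = n ^ 2 := by
      rw [Module.finrank_pi_fintype]
      simp [pow_two]
    have hW : Module.finrank K (Submodule.span K (Set.range R)) ≤ d :=
      (finrank_range_le_card R).trans (by simpa using hd)
    obtain ⟨W, hW1, hW2⟩ := exists_enlarge (Submodule.span K (Set.range R)) d hW (by rw [hfr]; exact hdn)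
    let b := Module.finBasisOfFinrankEq K W hW2
    refine ⟨fun k => (b k : Fin n → Fin n → K), N, fun _ => ?_, ?_⟩
    · exact b.linearIndependent.map' W.subtype (Submodule.ker_subtype W)
    · refine nil_of_span R _ N hN (fun k => ?_)
      have h1 : R k ∈ W := hW1 (Submodule.subset_span ⟨k, rfl⟩)
      have h2 : Submodule.span K (Set.range (fun k => (b k : Fin n → Fin n → K))) = W := by
        have := b.span_eq
        have h3 := congrArg (Submodule.map W.subtype) this
        rw [Submodule.map_span, Submodule.map_top, Submodule.range_subtype, ← Set.range_comp] at h3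
        exact h3
      rw [h2]; exact h1
  · refine ⟨fun k => if hk : (k : ℕ) < d₀ then R ⟨k, hk⟩ else 0, N, fun h => absurd h hdn, ?_⟩
    refine nil_of_span R _ N hN (fun k => Submodule.subset_span ⟨⟨k, lt_of_lt_of_le k.2 hd⟩, ?_⟩)
    simp

end adm

end Pool.Agent.TH40.Quad
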