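import Mathlib
import Pool.Agent.TH40.QuadH

namespace Pool.Agent.TH40.Quad

universe u

variable {K : Type u} [Field K]

/-- The quadratic element with coefficient array `r`. -/
noncomputable def quadEl (n : ℕ) : (Fin n → Fin n → K) →ₗ[K] FreeAlgebra K (Fin n) where
  toFun r := ev r (fun i j => FreeAlgebra.ι K i * FreeAlgebra.ι K j)
  map_add' := by
    intro r r'
    simp only [ev, Pi.add_apply, add_smul, Finset.sum_add_distrib]
  map_smul' := by
    intro a r
    simp only [ev, Pi.smul_apply, smul_eq_mul, mul_smul, Finset.smul_sum, RingHom.id_apply]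

theorem quadEl_mem (n : ℕ) (r : Fin n → Fin n → K) :
    quadEl n r ∈ Submodule.span K (Set.range fun p : Fin n × Fin n =>
      FreeAlgebra.ι K p.1 * FreeAlgebra.ι K p.2) := by
  change ev r _ ∈ _
  unfold ev
  refine Submodule.sum_mem _ (fun i _ => Submodule.sum_mem _ (fun j _ => ?_))
  exact Submodule.smul_mem _ _ (Submodule.subset_span ⟨(i, j), rfl⟩)

theorem quadEl_injective (n : ℕ) : Function.Injective (quadEl (K := K) n) := by
  have hli : LinearIndependent K (fun p : Fin n × Fin n =>
      (FreeAlgebra.ι K p.1 * FreeAlgebra.ι K p.2 : FreeAlgebra K (Fin n))) := by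
    have hb := (FreeAlgebra.basisFreeMonoid K (Fin n)).linearIndependent
    have hinj : Function.Injective (fun p : Fin n × Fin n =>
        (FreeMonoid.of p.1 * FreeMonoid.of p.2 : FreeMonoid (Fin n))) := by
      rintro ⟨a, b⟩ ⟨c, d⟩ h
      have h' := congrArg FreeMonoid.toList h
      simp at h'
      ext <;> simp [h'.1, h'.2]
    have h2 := hb.comp _ hinj
    have h3 : (FreeAlgebra.basisFreeMonoid K (Fin n)) ∘ (fun p : Fin n × Fin n =>
        (FreeMonoid.of p.1 * FreeMonoid.of p.2 : FreeMonoid (Fin n))) =
        fun p : Fin n × Fin n => (FreeAlgebra.ι K p.1 * FreeAlgebra.ι K p.2) := by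
      funext p
      simp only [Function.comp_apply, FreeAlgebra.basisFreeMonoid]
      change FreeAlgebra.equivMonoidAlgebraFreeMonoid.symm
        (MonoidAlgebra.single (FreeMonoid.of p.1 * FreeMonoid.of p.2) 1) = _
      rw [AlgEquiv.symm_apply_eq, map_mul]
      simp [FreeAlgebra.equivMonoidAlgebraFreeMonoid, MonoidAlgebra.single_mul_single]
    rwa [h3] at h2
  rw [injective_iff_map_eq_zero]
  intro r hr
  rw [Fintype.linearIndependent_iff] at hli
  have h1 : ∑ p : Fin n × Fin n, (r p.1 p.2) •
      (FreeAlgebra.ι K p.1 * FreeAlgebra.ι K p.2 : FreeAlgebra K (Fin n)) = 0 := by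
    rw [← hr, Fintype.sum_prod_type]
    rfl
  have h2 := hli (fun p => r p.1 p.2) h1
  funext i j
  exact h2 (i, j)

/-- Nil relations define a finite dimensional algebra. -/
theorem fd_of_nil (n : ℕ) {κ : Type} (R : κ → Fin n → Fin n → K) (N : ℕ) (hN : Nil R N) :
    FiniteDimensional K
      (RingQuot (fun x y : FreeAlgebra K (Fin n) => ∃ k, x = quadEl n (R k) ∧ y = 0)) := by
  set rel : FreeAlgebra K (Fin n) → FreeAlgebra K (Fin n) → Prop :=
    fun x y => ∃ k, x = quadEl n (R k) ∧ y = 0 with hrel
  let π : FreeAlgebra K (Fin n) →ₐ[K] RingQuot rel := RingQuot.mkAlgHom K rel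
  have hπ : Function.Surjective π := RingQuot.mkAlgHom_surjective K rel
  let wd : List (Fin n) → RingQuot rel := fun l => π ((l.map (FreeAlgebra.ι K)).prod)
  have hrelz : ∀ k, π (quadEl n (R k)) = 0 := by
    intro k
    have : π (quadEl n (R k)) = π 0 := RingQuot.mkAlgHom_rel K ⟨k, rfl, rfl⟩
    rw [this, map_zero]
  have hwd : ∀ l l', wd (l ++ l') = wd l * wd l' := by
    intro l l'
    simp [wd]
  have hcons : ∀ x l, wd (x :: l) = π (FreeAlgebra.ι K x) * wd l := by
    intro x l
    simp [wd]
  -- words of length N vanish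
  have hzero : ∀ l : List (Fin n), l.length = N → wd l = 0 := by
    intro l hl
    rw [← Module.forall_dual_apply_eq_zero_iff K]
    intro φ
    refine hN (fun l => φ (wd l)) ?_ l hl
    intro k l₁ l₂ _
    have h1 : ∀ i j, φ (wd (l₁ ++ i :: j :: l₂)) =
        (φ.comp ((LinearMap.mulLeft K (wd l₁)).comp ((LinearMap.mulRight K (wd l₂)).comp
          π.toLinearMap))) (FreeAlgebra.ι K i * FreeAlgebra.ι K j) := by
      intro i j
      rw [hwd, hcons, hcons]
      simp [mul_assoc]
    have h2 : ev (V := K) (R k) (fun i j => φ (wd (l₁ ++ i :: j :: l₂))) =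
        (φ.comp ((LinearMap.mulLeft K (wd l₁)).comp ((LinearMap.mulRight K (wd l₂)).comp
          π.toLinearMap))) (quadEl n (R k)) := by
      change _ = (φ.comp ((LinearMap.mulLeft K (wd l₁)).comp ((LinearMap.mulRight K (wd l₂)).comp
          π.toLinearMap))) (ev (R k) _)
      rw [ev_map]
      exact ev_congr _ _ _ h1
    rw [h2]
    simp [hrelz]
  have hzero' : ∀ l : List (Fin n), N ≤ l.length → wd l = 0 := by
    intro l hl
    have : l = l.take N ++ l.drop N := (List.take_append_drop N l).symm
    rw [this, hwd, hzero (l.take N) (by rw [List.length_take]; omega), zero_mul]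
  -- the span of short words
  let S : Submodule K (RingQuot rel) := Submodule.span K (wd '' {l | l.length < N})
  have hmem : ∀ l, wd l ∈ S := by
    intro l
    by_cases hl : l.length < N
    · exact Submodule.subset_span ⟨l, hl, rfl⟩
    · rw [hzero' l (by omega)]; exact S.zero_mem
  have hone : (1 : RingQuot rel) ∈ S := by
    have : wd [] = 1 := by simp [wd]
    rw [← this]; exact hmem []
  have hletter : ∀ (x : Fin n) (s : RingQuot rel), s ∈ S → π (FreeAlgebra.ι K x) * s ∈ S := by
    intro x s hs
    have hle : S ≤ S.comap (LinearMap.mulLeft K (π (FreeAlgebra.ι K x))) := by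
      refine Submodule.span_le.mpr ?_
      rintro _ ⟨l, _, rfl⟩
      change π (FreeAlgebra.ι K x) * wd l ∈ S
      rw [← hcons]; exact hmem _
    exact hle hs
  have hall : ∀ (a : FreeAlgebra K (Fin n)) (s : RingQuot rel), s ∈ S → π a * s ∈ S := by
    intro a
    induction a using FreeAlgebra.induction with
    | grade0 r =>
      intro s hs
      rw [AlgHom.commutes, ← Algebra.smul_def]
      exact S.smul_mem _ hs
    | grade1 x => exact hletter x
    | mul a b ha hb =>
      intro s hs
      rw [map_mul, mul_assoc]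
      exact ha _ (hb _ hs)
    | add a b ha hb =>
      intro s hs
      rw [map_add, add_mul]
      exact S.add_mem (ha _ hs) (hb _ hs)
  have htop : S = ⊤ := by
    rw [Submodule.eq_top_iff']
    intro x
    obtain ⟨a, rfl⟩ := hπ x
    have := hall a 1 hone
    rwa [mul_one] at this
  have hfin : (wd '' {l | l.length < N}).Finite :=
    (List.finite_length_lt (Fin n) N).image _
  have : Module.Finite K S := Module.Finite.span_of_finite K hfin
  rw [htop] at this
  exact Module.Finite.equiv (Submodule.topEquiv (R := K) (M := RingQuot rel))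

end Pool.Agent.TH40.Quad
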